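import Mathlib
import Pool.Agent.TH377.IG.BertB
import Pool.Agent.TH377.IG.FracTwo

/-!
Bertini step: solutions over `K(t)` without new constants, `K` infinite.
-/

set_option autoImplicit false

namespace Pool.Agent.TH377.IG

open Polynomial

theorem bert_aux (K L : Type) [Field K] [Infinite K] [Field L] [Algebra K L]
    [FiniteDimensional K L] [IsGalois K L]
    (B : Type) [Field B] [Algebra (RatFunc K) B] [FiniteDimensional (RatFunc K) B]
    [IsGalois (RatFunc K) B] [Algebra L B] [Algebra K B] [IsScalarTower K (RatFunc K) B]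
    [IsScalarTower K L B]
    (hB : ∀ y : B, IsAlgebraic L y → y ∈ Set.range (algebraMap L B))
    (δ : (B ≃ₐ[RatFunc K] B) →* (L ≃ₐ[K] L))
    (hδ : ∀ (ρ : B ≃ₐ[RatFunc K] B) (x : L), ρ (algebraMap L B x) = algebraMap L B (δ ρ x))
    (X : Type) [Group X] [Finite X] (α : X →* (B ≃ₐ[RatFunc K] B))
    (E : Type) [Field E] [Algebra (RatFunc K)[X] E] [IsFractionRing (RatFunc K)[X] E]
    (F : Type) [Field F] [Algebra E F] [Algebra B F] [FiniteDimensional E F] [IsGalois E F]
    (hEF : ∀ c : RatFunc K, algebraMap E F (algebraMap (RatFunc K)[X] E (C c)) =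
      algebraMap B F (algebraMap (RatFunc K) B c))
    (γ : (F ≃ₐ[E] F) ≃* X)
    (hγ : ∀ (σ : F ≃ₐ[E] F) (x : B), σ (algebraMap B F x) = algebraMap B F (α (γ σ) x))
    (hreg : ∀ y : F, IsAlgebraic B y → y ∈ Set.range (algebraMap B F)) :
    ∃ (F : Type) (_ : Field F) (_ : Algebra (RatFunc K) F) (_ : Algebra B F) (_ : Algebra K F)
      (_ : IsScalarTower (RatFunc K) B F) (_ : IsScalarTower K (RatFunc K) F)
      (_ : FiniteDimensional (RatFunc K) F) (_ : IsGalois (RatFunc K) F)
      (γ : (F ≃ₐ[RatFunc K] F) ≃* X),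
      (∀ (σ : F ≃ₐ[RatFunc K] F) (x : B), σ (algebraMap B F x) = algebraMap B F (α (γ σ) x)) ∧
      ∀ y : F, IsAlgebraic K y → ∃ x : L, y = algebraMap B F (algebraMap L B x) := by
  classical
  -- the coordinate ring
  let aKE : Algebra K E :=
    ((algebraMap (RatFunc K)[X] E).comp ((C : RatFunc K →+* (RatFunc K)[X]).comp
      (algebraMap K (RatFunc K)))).toAlgebra
  have hKE0 : ∀ c : K, algebraMap K E c =
      algebraMap (RatFunc K)[X] E (C (algebraMap K (RatFunc K) c)) := fun _ => rfl
  have hKE : ∀ c : K, algebraMap K E c =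
      algebraMap (RatFunc K)[X] E (C (algebraMap K[X] (RatFunc K) (C c))) := by
    intro c
    rw [hKE0, IsScalarTower.algebraMap_apply K K[X] (RatFunc K)]
    rfl
  obtain ⟨aAE, frAE, tKAE, hAE⟩ := frac_two (K := K) (k := RatFunc K) (E := E) hKE
  let A := MvPolynomial (Option Unit) K
  let aAF : Algebra A F := ((algebraMap E F).comp (algebraMap A E)).toAlgebra
  have tAEF : IsScalarTower A E F := IsScalarTower.of_algebraMap_eq fun _ => rfl
  let aKF : Algebra K F := ((algebraMap B F).comp (algebraMap K B)).toAlgebra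
  have hKF : ∀ c : K, algebraMap K F c = algebraMap B F (algebraMap K B c) := fun _ => rfl
  let aLF : Algebra L F := ((algebraMap B F).comp (algebraMap L B)).toAlgebra
  have hLF : ∀ c : L, algebraMap L F c = algebraMap B F (algebraMap L B c) := fun _ => rfl
  have tLBF : IsScalarTower L B F := IsScalarTower.of_algebraMap_eq fun _ => rfl
  have tKEF : IsScalarTower K E F := IsScalarTower.of_algebraMap_eq fun c => by
    rw [hKF, hKE0, hEF, ← IsScalarTower.algebraMap_apply K (RatFunc K) B]
  have tKLF : IsScalarTower K L F := IsScalarTower.of_algebraMap_eq fun c => by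
    rw [hKF, hLF, ← IsScalarTower.algebraMap_apply K L B]
  have hpF : ∀ p : K[X], algebraMap A F (aeval (MvPolynomial.X (some ())) p) =
      algebraMap B F (algebraMap (RatFunc K) B (algebraMap K[X] (RatFunc K) p)) := by
    intro p
    rw [IsScalarTower.algebraMap_apply A E F, hAE, hEF]
  obtain ⟨φ, Ω', j1, j2, j3, j4, j5, j6, π, j7, j8, γ', hφX, hπA, hπL, hσ, hconst⟩ :=
    place_line K L X (δ.comp α) (Option Unit) (some ()) E F γ
      (fun σ x => by
        rw [hLF, hγ, hδ]
        rfl)
      (fun y hy => by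
        obtain ⟨b, rfl⟩ := hreg y (hy.extendScalars (algebraMap L B).injective)
        rw [isAlgebraic_algebraMap_iff (algebraMap B F).injective] at hy
        obtain ⟨x, rfl⟩ := hB b hy
        exact ⟨x, rfl⟩)
  -- the integral closure of `K[t]` in `B`
  let aPB : Algebra K[X] B :=
    ((algebraMap (RatFunc K) B).comp (algebraMap K[X] (RatFunc K))).toAlgebra
  have hPB : ∀ p : K[X], algebraMap K[X] B p =
      algebraMap (RatFunc K) B (algebraMap K[X] (RatFunc K) p) := fun _ => rfl
  have tPB : IsScalarTower K[X] (RatFunc K) B := IsScalarTower.of_algebraMap_eq fun _ => rfl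
  have hfrB : IsFractionRing (integralClosure K[X] B) B :=
    integralClosure.isFractionRing_of_finite_extension (RatFunc K) B
  have hint : ∀ y : B, IsIntegral K[X] y → algebraMap B F y ∈ integralClosure A F := by
    rintro y ⟨P, hPm, hP⟩
    refine ⟨P.map ((aeval (MvPolynomial.X (some ())) : K[X] →ₐ[K] A) : K[X] →+* A),
      hPm.map _, ?_⟩
    rw [eval₂_map]
    have h1 : (algebraMap A F).comp ((aeval (MvPolynomial.X (some ())) : K[X] →ₐ[K] A) :
        K[X] →+* A) = (algebraMap B F).comp (algebraMap K[X] B) := by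
      apply RingHom.ext
      intro p
      exact hpF p
    rw [h1, ← hom_eval₂, hP, map_zero]
  let χ : integralClosure K[X] B →+* integralClosure A F :=
    ((algebraMap B F).comp (algebraMap (integralClosure K[X] B) B)).codRestrict
      (integralClosure A F) (fun y => hint _ y.2)
  have hχ : ∀ y : integralClosure K[X] B, ((χ y : integralClosure A F) : F) =
      algebraMap B F (y : B) := fun _ => rfl
  let j₀ : integralClosure K[X] B →+* Ω' := π.comp χ
  have hj₀ : ∀ y, j₀ y = π (χ y) := fun _ => rfl
  have hj₀p : ∀ p : K[X], j₀ (algebraMap K[X] (integralClosure K[X] B) p) =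
      algebraMap (RatFunc K) Ω' (algebraMap K[X] (RatFunc K) p) := by
    intro p
    have h1 : χ (algebraMap K[X] (integralClosure K[X] B) p) =
        algebraMap A (integralClosure A F) (aeval (MvPolynomial.X (some ())) p) := by
      apply Subtype.ext
      exact (hpF p).symm
    rw [hj₀, h1, hπA, ← aeval_algHom_apply, hφX, aeval_X_left_apply]
  have hj₀inj : Function.Injective j₀ := by
    rw [RingHom.injective_iff_ker_eq_bot]
    apply Ideal.eq_bot_of_comap_eq_bot (R := K[X])
    rw [eq_bot_iff]
    intro p hp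
    rw [Ideal.mem_comap, RingHom.mem_ker, hj₀p,
      map_eq_zero_iff _ (algebraMap (RatFunc K) Ω').injective,
      map_eq_zero_iff _ (RatFunc.algebraMap_injective K)] at hp
    exact hp
  let j₁ : B →+* Ω' := IsFractionRing.lift (A := integralClosure K[X] B) hj₀inj
  have hj₁ : ∀ y : integralClosure K[X] B, j₁ (y : B) = j₀ y := fun y =>
    IsFractionRing.lift_algebraMap hj₀inj y
  have hj₁R : ∀ c : RatFunc K, j₁ (algebraMap (RatFunc K) B c) = algebraMap (RatFunc K) Ω' c := by
    intro c
    have h1 : j₁.comp (algebraMap (RatFunc K) B) = algebraMap (RatFunc K) Ω' := by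
      apply IsLocalization.ringHom_ext (nonZeroDivisors K[X])
      apply RingHom.ext
      intro p
      change j₁ (algebraMap (RatFunc K) B (algebraMap K[X] (RatFunc K) p)) = _
      rw [RingHom.comp_apply, ← hj₀p, ← hj₁]
      rfl
    exact RingHom.congr_fun h1 c
  let j : B →ₐ[RatFunc K] Ω' := { j₁ with commutes' := hj₁R }
  have hj : ∀ b, j b = j₁ b := fun _ => rfl
  have hjmem : ∀ b : B, j b ∈ separableClosure (RatFunc K) Ω' := by
    intro b
    rw [mem_separableClosure_iff]
    have h1 : IsSeparable (RatFunc K) b := Algebra.IsSeparable.isSeparable (RatFunc K) b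
    exact h1.map j j.toRingHom.injective
  let Es := separableClosure (RatFunc K) Ω'
  let aBE : Algebra B Es := ((j : B →+* Ω').codRestrict Es hjmem).toAlgebra
  have hBE : ∀ b : B, ((algebraMap B Es b : Es) : Ω') = j b := fun _ => rfl
  have tRBE : IsScalarTower (RatFunc K) B Es := IsScalarTower.of_algebraMap_eq fun c => by
    apply Subtype.ext
    rw [hBE, j.commutes]
    rfl
  have tKRE : IsScalarTower K (RatFunc K) Es := IsScalarTower.of_algebraMap_eq fun c => by
    apply Subtype.ext
    change algebraMap K Ω' c = _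
    rw [IsScalarTower.algebraMap_apply K (RatFunc K) Ω']
    rfl
  refine ⟨Es, inferInstance, inferInstance, aBE, inferInstance, tRBE, tKRE, j7, j8, γ',
    fun σ b => ?_, fun y hy => ?_⟩
  · apply Subtype.ext
    rw [hBE]
    have h1 : ((algebraMap Es Ω').comp (σ : Es →+* Es)).comp (algebraMap B Es) =
        (j : B →+* Ω').comp ((α (γ' σ) : B ≃ₐ[RatFunc K] B) : B →+* B) := by
      apply IsLocalization.ringHom_ext (nonZeroDivisors (integralClosure K[X] B))
      apply RingHom.ext
      intro y
      change ((σ (algebraMap B Es (y : B)) : Es) : Ω') = j (α (γ' σ) (y : B))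
      have hy' : IsIntegral K[X] (α (γ' σ) (y : B)) := by
        have h2 : IsIntegral K[X] (y : B) := y.2
        exact h2.map ((α (γ' σ) : B →ₐ[RatFunc K] B).restrictScalars K[X])
      have h2 := hσ σ (χ y) (χ ⟨_, hy'⟩) (γ.symm (γ' σ)) (γ.apply_symm_apply _) (by
        rw [hχ, hχ, hγ, MulEquiv.apply_symm_apply]) (by
        rw [← hj₀, ← hj₁]
        exact hjmem _)
      have h3 : algebraMap B Es (y : B) = ⟨π (χ y), by
          rw [← hj₀, ← hj₁]
          exact hjmem _⟩ := by
        apply Subtype.ext
        exact (hBE (y : B)).trans (hj₁ y)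
      rw [h3]
      refine h2.trans ?_
      rw [hj, ← hj₀, ← hj₁]
    exact RingHom.congr_fun h1 b
  · have hyΩ : IsAlgebraic K (y : Ω') := by
      have tKEsΩ : IsScalarTower K Es Ω' := IsScalarTower.of_algebraMap_eq fun _ => rfl
      exact hy.algebraMap (A := Ω')
    obtain ⟨x, hx⟩ := hconst (y : Ω') y.2 hyΩ
    refine ⟨x, ?_⟩
    apply Subtype.ext
    rw [hBE, ← hx]
    have hxint : IsIntegral K[X] (algebraMap L B x) := by
      have h1 : IsIntegral K (algebraMap L B x) :=
        (Algebra.IsIntegral.isIntegral (R := K) x).algebraMap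
      have tKPB : IsScalarTower K K[X] B := IsScalarTower.of_algebraMap_eq fun c => by
        rw [hPB, ← IsScalarTower.algebraMap_apply K K[X] (RatFunc K),
          ← IsScalarTower.algebraMap_apply K (RatFunc K) B]
      exact h1.tower_top
    have h1 := hπL x (hint _ hxint)
    rw [← h1, hj, hj₁ ⟨_, hxint⟩, hj₀]
    rfl

end Pool.Agent.TH377.IG
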