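import Mathlib
import Pool.Agent.H391R2.T4.Utl
import Pool.Agent.H391R2.T4.Gp

/-!
# Base change of regular solutions: minimal polynomials and automorphisms
-/

set_option autoImplicit false

namespace Pool.Agent.TH377.IG

open Polynomial
open Pool.Agent.H391R2.T4 (eqF exists_equiv_of_ker)

/-- Minimal polynomials over `L` stay irreducible over a field in which `L` is algebraically
closed. -/
theorem minpoly_reg {L F N : Type} [Field L] [Field F] [Field N] [Algebra L F] [Algebra F N]
    [Algebra L N] [IsScalarTower L F N]
    (hreg : ∀ y : F, IsAlgebraic L y → y ∈ Set.range (algebraMap L F)) (b : N)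
    (hb : IsIntegral L b) : minpoly F b = (minpoly L b).map (algebraMap L F) := by
  have hbF : IsIntegral F b := hb.tower_top
  have hd : minpoly F b ∣ (minpoly L b).map (algebraMap L F) := by
    refine minpoly.dvd F b ?_
    rw [aeval_map_algebraMap, minpoly.aeval]
  have h1 := integralClosure.mem_lifts_of_monic_of_dvd_map F (minpoly.monic hb)
    (minpoly.monic hbF) hd
  have h2 : minpoly F b ∈ lifts (algebraMap L F) := by
    rw [lifts_iff_coeff_lifts] at h1 ⊢
    intro i
    obtain ⟨c, hc⟩ := h1 i
    have h3 : IsIntegral L (c : F) := c.2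
    have hc' : (c : F) = (minpoly F b).coeff i := hc
    rw [hc'] at h3
    exact hreg _ h3.isAlgebraic
  obtain ⟨g, hg, hgd, hgm⟩ := lifts_and_natDegree_eq_and_monic h2 (minpoly.monic hbF)
  have h3 : aeval b g = 0 := by
    rw [← aeval_map_algebraMap F, hg, minpoly.aeval]
  have h4 : minpoly L b ∣ g := minpoly.dvd L b h3
  have h5 : g.natDegree ≤ (minpoly L b).natDegree := by
    rw [hgd]
    have h6 := natDegree_le_of_dvd hd
      ((minpoly.monic hb).map (algebraMap L F)).ne_zero
    rwa [(minpoly.monic hb).natDegree_map] at h6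
  have h6 : minpoly L b = g :=
    (eq_of_monic_of_dvd_of_natDegree_le (minpoly.monic hb) hgm h4 h5).symm
  rw [h6, hg]

/-- Automorphisms extend. -/
theorem extend_aut {L F N B : Type} [Field L] [Field F] [Field N] [Field B] [Algebra L F]
    [Algebra F N] [Algebra L N] [IsScalarTower L F N] [Algebra L B] [Algebra B N]
    [IsScalarTower L B N] [FiniteDimensional L B] [Algebra.IsSeparable L B] [Normal F N]
    (hreg : ∀ y : F, IsAlgebraic L y → y ∈ Set.range (algebraMap L F)) (ρ : B ≃ₐ[L] B) :
    ∃ σ : N ≃ₐ[F] N, ∀ b : B, σ (algebraMap B N b) = algebraMap B N (ρ b) := by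
  obtain ⟨β, hβ⟩ := Field.exists_primitive_element L B
  have hint : ∀ b : B, IsIntegral L (algebraMap B N b) := fun b =>
    (Algebra.IsIntegral.isIntegral (R := L) b).algebraMap
  have hmin : ∀ b : B, minpoly L (algebraMap B N b) = minpoly L b := fun b =>
    minpoly.algebraMap_eq (algebraMap B N).injective b
  have h1 : IsConjRoot F (algebraMap B N (ρ β)) (algebraMap B N β) := by
    rw [IsConjRoot, minpoly_reg hreg _ (hint _), minpoly_reg hreg _ (hint _), hmin, hmin,
      minpoly.algEquiv_eq]
  obtain ⟨σ, hσ⟩ := isConjRoot_iff_exists_algEquiv.1 h1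
  refine ⟨σ, ?_⟩
  let f : B →ₐ[L] N := ((σ : N →ₐ[F] N).restrictScalars L).comp (IsScalarTower.toAlgHom L B N)
  let g : B →ₐ[L] N := (IsScalarTower.toAlgHom L B N).comp (ρ : B →ₐ[L] B)
  have h2 : (⊤ : IntermediateField L B) ≤ eqF f g := by
    rw [← hβ, IntermediateField.adjoin_simple_le_iff]
    exact hσ
  intro b
  exact h2 (IntermediateField.mem_top (x := b))

/-- Compositum of a finite Galois extension with a finite separable extension of constants. -/
theorem exists_comp' {K L B E F : Type} [Field K] [Field L] [Algebra K L] [Field B]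
    [Algebra L B] [Algebra K B] [IsScalarTower K L B] [FiniteDimensional K B]
    [Algebra.IsSeparable K B] [Field E] [Field F]
    [Algebra E F] [FiniteDimensional E F] [IsGalois E F] [Algebra L F] [Algebra K E]
    [Algebra K F] [IsScalarTower K E F] [IsScalarTower K L F] :
    ∃ (N : Type) (_ : Field N) (_ : Algebra E N) (_ : Algebra F N) (_ : IsScalarTower E F N)
      (_ : Algebra B N) (_ : FiniteDimensional E N) (_ : IsGalois E N),
      ∀ x : L, algebraMap B N (algebraMap L B x) = algebraMap F N (algebraMap L F x) := by
  classical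
  let Ω := AlgebraicClosure F
  have hLB : FiniteDimensional L B := Module.Finite.of_restrictScalars_finite K L B
  have hLκ : Algebra.IsAlgebraic L B := Algebra.IsAlgebraic.of_finite L B
  let j : B →ₐ[L] Ω := IsAlgClosed.lift
  have halg : Algebra.IsAlgebraic E Ω := Algebra.IsAlgebraic.trans E F Ω
  have hcl : IsAlgClosure E Ω := ⟨inferInstance, halg⟩
  have hnorm : Normal E Ω := IsAlgClosure.normal E Ω
  let Es := separableClosure E Ω
  have hTΩ : IsScalarTower K L Ω := inferInstance
  have hTΩ' : IsScalarTower K E Ω := inferInstance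
  have hjs : ∀ x : B, (j : B →+* Ω) x ∈ Es := by
    intro x
    rw [mem_separableClosure_iff]
    have h4 : IsSeparable K x := Algebra.IsSeparable.isSeparable K x
    have h5 : IsSeparable K (j x) := h4.map (j.restrictScalars K) (j : B →+* Ω).injective
    exact h5.tower_top E
  let jB : B →+* Es := (j : B →+* Ω).codRestrict Es hjs
  have hFs : ∀ x : F, algebraMap F Ω x ∈ Es := by
    intro x
    rw [mem_separableClosure_iff]
    have h4 : IsSeparable E x := Algebra.IsSeparable.isSeparable E x
    exact h4.map (IsScalarTower.toAlgHom E F Ω) (algebraMap F Ω).injective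
  let jF : F →+* Es := (algebraMap F Ω).codRestrict Es hFs
  have hjF : ∀ x : E, jF (algebraMap E F x) = algebraMap E Es x := by
    intro x
    apply Subtype.ext
    change algebraMap F Ω (algebraMap E F x) = algebraMap E Ω x
    rw [← IsScalarTower.algebraMap_apply E F Ω]
  have hjK : ∀ x : K, jB (algebraMap K B x) = algebraMap E Es (algebraMap K E x) := by
    intro x
    apply Subtype.ext
    change j (algebraMap K B x) = algebraMap E Ω (algebraMap K E x)
    rw [IsScalarTower.algebraMap_apply K L B, j.commutes, ← IsScalarTower.algebraMap_apply K L Ω,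
      ← IsScalarTower.algebraMap_apply K E Ω]
  let b := Module.finBasis E F
  let b' := Module.finBasis K B
  let S : Set Es := (Set.range fun q => jF (b q)) ∪ Set.range fun q => jB (b' q)
  have hSf : Finite S := ((Set.finite_range _).union (Set.finite_range _)).to_subtype
  let N : FiniteGaloisIntermediateField E Es := FiniteGaloisIntermediateField.adjoin E S
  have hSN : S ⊆ (N : IntermediateField E Es) := FiniteGaloisIntermediateField.subset_adjoin E S
  have hFN : ∀ x : F, jF x ∈ (N : IntermediateField E Es) := by
    intro x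
    rw [← b.sum_repr x, map_sum]
    refine sum_mem fun q _ => ?_
    rw [Algebra.smul_def, map_mul, hjF]
    exact mul_mem (IntermediateField.algebraMap_mem _ _) (hSN (Or.inl ⟨q, rfl⟩))
  have hBN : ∀ x : B, jB x ∈ (N : IntermediateField E Es) := by
    intro x
    rw [← b'.sum_repr x, map_sum]
    refine sum_mem fun q _ => ?_
    rw [Algebra.smul_def, map_mul, hjK]
    exact mul_mem (IntermediateField.algebraMap_mem _ _) (hSN (Or.inr ⟨q, rfl⟩))
  let _ : Algebra F N := (jF.codRestrict (N : IntermediateField E Es) hFN).toAlgebra
  let _ : Algebra B N := (jB.codRestrict (N : IntermediateField E Es) hBN).toAlgebra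
  have hT : IsScalarTower E F N := IsScalarTower.of_algebraMap_eq fun x => by
    apply Subtype.ext
    exact (hjF x).symm
  refine ⟨N, inferInstance, inferInstance, inferInstance, hT, inferInstance, inferInstance,
    inferInstance, fun x => ?_⟩
  apply Subtype.ext
  apply Subtype.ext
  change j (algebraMap L B x) = algebraMap F Ω (algebraMap L F x)
  rw [j.commutes, ← IsScalarTower.algebraMap_apply L F Ω]

end Pool.Agent.TH377.IG
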