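import Mathlib
import Pool.Agent.TH377.IG.Bc1
import Pool.Agent.H391R2.T4.Red

/-!
# Base change of regular solutions
-/

set_option autoImplicit false

namespace Pool.Agent.TH377.IG

open Polynomial
open Pool.Agent.H391R2.T4 (eqF exists_equiv_of_ker RegSol)

/-- The fibre product. -/
def FP {H Γ Γ' : Type} [Group H] [Group Γ] [Group Γ'] (α : H →* Γ) (r : Γ' →* Γ) :
    Subgroup (H × Γ') :=
  (α.comp (MonoidHom.fst H Γ')).eqLocus (r.comp (MonoidHom.snd H Γ'))

theorem mem_FP {H Γ Γ' : Type} [Group H] [Group Γ] [Group Γ'] (α : H →* Γ) (r : Γ' →* Γ)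
    (x : H × Γ') : x ∈ FP α r ↔ α x.1 = r x.2 := Iff.rfl

/-- The projection of the fibre product. -/
def prFP {H Γ Γ' : Type} [Group H] [Group Γ] [Group Γ'] (α : H →* Γ) (r : Γ' →* Γ) :
    FP α r →* Γ' := (MonoidHom.snd H Γ').comp (FP α r).subtype

/-- Base change of regular solutions (without regularity of the result). -/
theorem base_change (K L H : Type) [Field K] [Field L] [Algebra K L] [FiniteDimensional K L]
    [IsGalois K L] [Group H] [Finite H] (α : H →* (L ≃ₐ[K] L)) (hreg : RegSol K L H α)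
    (B : Type) [Field B] [Algebra K B] [FiniteDimensional K B] [IsGalois K B] [Algebra L B]
    [IsScalarTower K L B] :
    ∃ (F : Type) (_ : Field F) (_ : Algebra (RatFunc K) F) (_ : Algebra B F)
      (_ : Algebra K F) (_ : IsScalarTower K (RatFunc K) F) (_ : IsScalarTower K B F)
      (_ : FiniteDimensional (RatFunc K) F) (_ : IsGalois (RatFunc K) F)
      (γ : (F ≃ₐ[RatFunc K] F) ≃* FP α (AlgEquiv.restrictNormalHom (F := K) (K₁ := B) L)),
      ∀ (σ : F ≃ₐ[RatFunc K] F) (x : B), σ (algebraMap B F x) =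
        algebraMap B F (prFP α (AlgEquiv.restrictNormalHom (F := K) (K₁ := B) L) (γ σ) x) := by
  classical
  obtain ⟨F, i1, i2, i3, i4, i5, i6, i7, i8, γ, hγ, hr⟩ := hreg
  obtain ⟨N, c1, c2, c3, c4, c5, c6, c7, hN⟩ := exists_comp' (K := K) (L := L) (B := B)
    (E := RatFunc K) (F := F)
  let aKN : Algebra K N := ((algebraMap (RatFunc K) N).comp (algebraMap K (RatFunc K))).toAlgebra
  have t1 : IsScalarTower K (RatFunc K) N := IsScalarTower.of_algebraMap_eq fun x => rfl
  have t2 : IsScalarTower K F N := IsScalarTower.of_algebraMap_eq fun x => by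
    rw [IsScalarTower.algebraMap_apply K (RatFunc K) F,
      ← IsScalarTower.algebraMap_apply (RatFunc K) F N]
    rfl
  have t3 : IsScalarTower K B N := IsScalarTower.of_algebraMap_eq fun x => by
    rw [IsScalarTower.algebraMap_apply K L B, hN, ← IsScalarTower.algebraMap_apply K L F,
      ← IsScalarTower.algebraMap_apply K F N]
  let aLN : Algebra L N := ((algebraMap F N).comp (algebraMap L F)).toAlgebra
  have t4 : IsScalarTower L F N := IsScalarTower.of_algebraMap_eq fun x => rfl
  have t5 : IsScalarTower L B N := IsScalarTower.of_algebraMap_eq fun x => (hN x).symm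
  have hLB : FiniteDimensional L B := Module.Finite.of_restrictScalars_finite K L B
  have hLs : Algebra.IsSeparable L B := Algebra.isSeparable_tower_top_of_isSeparable K L B
  have hNF : IsGalois F N := IsGalois.tower_top_of_isGalois (RatFunc K) F N
  let resL : (B ≃ₐ[K] B) →* (L ≃ₐ[K] L) := AlgEquiv.restrictNormalHom L
  have hresL : ∀ (ρ : B ≃ₐ[K] B) (x : L), algebraMap L B (resL ρ x) = ρ (algebraMap L B x) :=
    fun ρ x => AlgEquiv.restrictNormal_commutes ρ L x
  let resF : (N ≃ₐ[RatFunc K] N) →* (F ≃ₐ[RatFunc K] F) := AlgEquiv.restrictNormalHom F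
  have hresF : ∀ (σ : N ≃ₐ[RatFunc K] N) (x : F), algebraMap F N (resF σ x) =
      σ (algebraMap F N x) := fun σ x => AlgEquiv.restrictNormal_commutes σ F x
  have hressurj : Function.Surjective resF := AlgEquiv.restrictNormalHom_surjective N
  let resB : (N ≃ₐ[RatFunc K] N) →* (B ≃ₐ[K] B) :=
    (AlgEquiv.restrictNormalHom (F := K) (K₁ := N) B).comp (AlgEquiv.restrictScalarsHom K)
  have hresB : ∀ (σ : N ≃ₐ[RatFunc K] N) (x : B), algebraMap B N (resB σ x) =
      σ (algebraMap B N x) := fun σ x =>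
    AlgEquiv.restrictNormal_commutes (σ.restrictScalars K) B x
  have hcompat : ∀ σ : N ≃ₐ[RatFunc K] N, α (γ (resF σ)) = resL (resB σ) := by
    intro σ
    apply AlgEquiv.ext
    intro x
    apply (algebraMap L N).injective
    change algebraMap F N (algebraMap L F _) = algebraMap L N _
    rw [← hγ, hresF, IsScalarTower.algebraMap_apply L B N, hresL, hresB, hN]
  let π : (N ≃ₐ[RatFunc K] N) →* FP α resL :=
    MonoidHom.codRestrict ((γ.toMonoidHom.comp resF).prod resB) (FP α resL) hcompat
  have hπ : ∀ σ, (π σ : H × (B ≃ₐ[K] B)) = (γ (resF σ), resB σ) := fun σ => rfl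
  have hπsurj : Function.Surjective π := by
    rintro ⟨⟨h, ρ⟩, hρ⟩
    have hρ' : α h = resL ρ := hρ
    obtain ⟨σ₁, hσ₁⟩ := hressurj (γ.symm h)
    have h1 : γ (resF σ₁) = h := by rw [hσ₁, MulEquiv.apply_symm_apply]
    obtain ⟨ρ', hρd⟩ : ∃ ρ', ρ' = (resB σ₁)⁻¹ * ρ := ⟨_, rfl⟩
    have h2 : resL ρ' = 1 := by
      rw [hρd, map_mul, map_inv, ← hcompat, h1, hρ', inv_mul_cancel]
    let ρ'' : B ≃ₐ[L] B := AlgEquiv.ofRingEquiv (f := (ρ' : B ≃+* B)) (fun x => by
      change ρ' (algebraMap L B x) = algebraMap L B x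
      rw [← hresL, h2]
      rfl)
    obtain ⟨σ₂, hσ₂⟩ := extend_aut (N := N) hr ρ''
    refine ⟨σ₁ * σ₂.restrictScalars (RatFunc K), ?_⟩
    apply Subtype.ext
    rw [hπ]
    apply Prod.ext
    · change γ (resF (σ₁ * σ₂.restrictScalars (RatFunc K))) = h
      have h3 : resF (σ₂.restrictScalars (RatFunc K)) = 1 := by
        apply AlgEquiv.ext
        intro x
        apply (algebraMap F N).injective
        rw [hresF]
        exact σ₂.commutes x
      rw [map_mul, h3, mul_one, h1]
    · change resB (σ₁ * σ₂.restrictScalars (RatFunc K)) = ρ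
      have h3 : resB (σ₂.restrictScalars (RatFunc K)) = ρ' := by
        apply AlgEquiv.ext
        intro x
        apply (algebraMap B N).injective
        rw [hresB]
        exact hσ₂ x
      rw [map_mul, h3, hρd, mul_inv_cancel_left]
  -- the fixed field of the kernel
  let F₁ := IntermediateField.fixedField π.ker
  have hgal : IsGalois (RatFunc K) F₁ := IsGalois.of_fixedField_normal_subgroup π.ker
  have hker : (AlgEquiv.restrictNormalHom (F := RatFunc K) (K₁ := N) F₁).ker = π.ker := by
    ext σ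
    rw [MonoidHom.mem_ker]
    constructor
    · intro h
      have h1 : σ ∈ F₁.fixingSubgroup := by
        rw [IntermediateField.mem_fixingSubgroup_iff]
        intro x hx
        have h2 := AlgEquiv.restrictNormal_commutes σ F₁ (⟨x, hx⟩ : F₁)
        have h3 : σ.restrictNormal F₁ = 1 := h
        rw [h3] at h2
        exact h2.symm
      rw [IntermediateField.fixingSubgroup_fixedField] at h1
      exact h1
    · intro h
      apply AlgEquiv.ext
      intro x
      apply Subtype.ext
      have h1 := AlgEquiv.restrictNormal_commutes σ F₁ x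
      exact h1.trans (x.2 ⟨σ, h⟩)
  obtain ⟨γ₁, hγ₁⟩ := exists_equiv_of_ker
    (AlgEquiv.restrictNormalHom (F := RatFunc K) (K₁ := N) F₁) π
    (AlgEquiv.restrictNormalHom_surjective N) hπsurj hker
  have hBF : ∀ x : B, algebraMap B N x ∈ F₁ := by
    rintro x ⟨τ, hτ⟩
    have h1 : π τ = 1 := hτ
    change τ (algebraMap B N x) = algebraMap B N x
    rw [← hresB]
    have h2 : resB τ = 1 := by
      have h3 := congrArg (fun z : FP α resL => (z : H × (B ≃ₐ[K] B)).2) h1
      exact h3
    rw [h2]
    rfl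
  let aBF : Algebra B F₁ := ((algebraMap B N).codRestrict F₁ hBF).toAlgebra
  have hBFv : ∀ x : B, ((algebraMap B F₁ x : F₁) : N) = algebraMap B N x := fun _ => rfl
  let aKF : Algebra K F₁ :=
    ((algebraMap (RatFunc K) F₁).comp (algebraMap K (RatFunc K))).toAlgebra
  have s1 : IsScalarTower K (RatFunc K) F₁ := IsScalarTower.of_algebraMap_eq fun x => rfl
  have s2 : IsScalarTower K B F₁ := IsScalarTower.of_algebraMap_eq fun x => by
    apply Subtype.ext
    rw [hBFv, ← IsScalarTower.algebraMap_apply K B N]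
    rfl
  refine ⟨F₁, inferInstance, inferInstance, aBF, aKF, s1, s2, inferInstance, hgal, γ₁, ?_⟩
  intro τ' x
  obtain ⟨τ, rfl⟩ := AlgEquiv.restrictNormalHom_surjective (F := RatFunc K) (K₁ := F₁) N τ'
  apply Subtype.ext
  have h1 := AlgEquiv.restrictNormal_commutes τ F₁ (algebraMap B F₁ x)
  refine h1.trans ?_
  change τ (algebraMap B N x) = algebraMap B N (prFP α resL (γ₁ _) x)
  rw [hγ₁, ← hresB]
  rfl

end Pool.Agent.TH377.IG
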