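import Mathlib
import Pool.Agent.H451R6.Prod

/-!
# Infinite families of Galois extensions which are linearly disjoint over a common subfield
-/

set_option autoImplicit false

namespace Pool.Agent.TH377.IG

open IntermediateField AlgEquiv

section

variable {k Ω : Type} [Field k] [Field Ω] [Algebra k Ω] [IsGalois k Ω]

theorem fg_of_open (E : IntermediateField k Ω) (h : IsOpen (E.fixingSubgroup : Set Gal(Ω/k)))
    (hn : E.fixingSubgroup.Normal) : Pool.Agent.H451R6.FG E :=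
  ⟨(InfiniteGalois.isOpen_iff_finite E).1 h, (InfiniteGalois.normal_iff_isGalois E).1 hn⟩

theorem fg_normal {E : IntermediateField k Ω} (h : Pool.Agent.H451R6.FG E) :
    E.fixingSubgroup.Normal := (InfiniteGalois.normal_iff_isGalois E).2 h.2

theorem fg_open {E : IntermediateField k Ω} (h : Pool.Agent.H451R6.FG E) :
    IsOpen (E.fixingSubgroup : Set Gal(Ω/k)) := (InfiniteGalois.isOpen_iff_finite E).2 h.1

theorem fg_sup {B E : IntermediateField k Ω} (hB : Pool.Agent.H451R6.FG B)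
    (hE : Pool.Agent.H451R6.FG E) : Pool.Agent.H451R6.FG (B ⊔ E) := by
  obtain ⟨h1, h2⟩ := hB
  obtain ⟨h3, h4⟩ := hE
  have : Algebra.IsSeparable k ↥(B ⊔ E) :=
    Algebra.isSeparable_tower_bot_of_isSeparable k ↥(B ⊔ E) Ω
  exact ⟨inferInstance, ⟨⟩⟩

/-- The subgroup generated by two fixing subgroups. -/
theorem sup_fix (B E : IntermediateField k Ω) (hE : Pool.Agent.H451R6.FG E) :
    B.fixingSubgroup ⊔ E.fixingSubgroup = (B ⊓ E).fixingSubgroup := by
  have hopen : IsOpen ((B.fixingSubgroup ⊔ E.fixingSubgroup : Subgroup Gal(Ω/k)) :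
      Set Gal(Ω/k)) := Subgroup.isOpen_mono le_sup_right (fg_open hE)
  have hcl : IsClosed ((B.fixingSubgroup ⊔ E.fixingSubgroup : Subgroup Gal(Ω/k)) :
      Set Gal(Ω/k)) := Subgroup.isClosed_of_isOpen _ hopen
  let H : ClosedSubgroup Gal(Ω/k) := ⟨B.fixingSubgroup ⊔ E.fixingSubgroup, hcl⟩
  have hfix : fixedField H.1 = B ⊓ E := by
    apply le_antisymm
    · intro x hx
      rw [mem_inf]
      constructor
      · rw [← InfiniteGalois.fixedField_fixingSubgroup B]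
        intro g
        exact hx ⟨g.1, (le_sup_left : B.fixingSubgroup ≤ _) g.2⟩
      · rw [← InfiniteGalois.fixedField_fixingSubgroup E]
        intro g
        exact hx ⟨g.1, (le_sup_right : E.fixingSubgroup ≤ _) g.2⟩
    · intro x hx
      rw [IntermediateField.mem_fixedField_iff]
      intro g hg
      have h1 : B.fixingSubgroup ⊔ E.fixingSubgroup ≤ (B ⊓ E).fixingSubgroup :=
        sup_le (fixingSubgroup_le inf_le_left) (fixingSubgroup_le inf_le_right)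
      exact (IntermediateField.mem_fixingSubgroup_iff _ _).1 (h1 hg) x hx
  have h1 := InfiniteGalois.fixingSubgroup_fixedField H
  rw [hfix] at h1
  exact h1.symm

/-- Two automorphisms which agree on the intersection can be glued. -/
theorem glueR (B E : IntermediateField k Ω) (hB : Pool.Agent.H451R6.FG B)
    (hE : Pool.Agent.H451R6.FG E) (σ τ : Gal(Ω/k)) (h : σ⁻¹ * τ ∈ (B ⊓ E).fixingSubgroup) :
    ∃ ρ : Gal(Ω/k), σ⁻¹ * ρ ∈ B.fixingSubgroup ∧ τ⁻¹ * ρ ∈ E.fixingSubgroup := by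
  have nB : B.fixingSubgroup.Normal := fg_normal hB
  rw [← sup_fix B E hE] at h
  obtain ⟨a, ha, b, hb, hab⟩ := Subgroup.mem_sup_of_normal_left.1 h
  refine ⟨σ * a, by rwa [inv_mul_cancel_left], ?_⟩
  have h1 : τ⁻¹ * (σ * a) = b⁻¹ := by
    have : τ = σ * (a * b) := by rw [hab]; group
    rw [this]; group
  rw [h1]
  exact inv_mem hb

theorem closed_coset (E : IntermediateField k Ω) (hE : Pool.Agent.H451R6.FG E) (t : Gal(Ω/k)) :
    IsClosed {σ : Gal(Ω/k) | t⁻¹ * σ ∈ E.fixingSubgroup} := by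
  have h1 : IsClosed (E.fixingSubgroup : Set Gal(Ω/k)) :=
    Subgroup.isClosed_of_isOpen _ (fg_open hE)
  exact h1.preimage (continuous_const_mul t⁻¹)

/-- The infinite construction over a common subfield. -/
theorem exists_seqR (L₀ M : IntermediateField k Ω) (hM : Pool.Agent.H451R6.FG M) (hLM : L₀ ≤ M)
    (Q : ℕ → IntermediateField k Ω → Prop)
    (C : ∀ i (B : IntermediateField k Ω), Pool.Agent.H451R6.FG B → L₀ ≤ B →
      ∃ E : IntermediateField k Ω, Pool.Agent.H451R6.FG E ∧ B ⊓ E = L₀ ∧ Q i E) :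
    ∃ E : ℕ → IntermediateField k Ω, (∀ i, Pool.Agent.H451R6.FG (E i) ∧ L₀ ≤ E i ∧ Q i (E i)) ∧
      ∀ (τ : Gal(Ω/k)) (t : ℕ → Gal(Ω/k)), (∀ i, τ⁻¹ * t i ∈ L₀.fixingSubgroup) →
        ∃ σ : Gal(Ω/k), τ⁻¹ * σ ∈ M.fixingSubgroup ∧ ∀ i, (t i)⁻¹ * σ ∈ (E i).fixingSubgroup := by
  classical
  choose c hc using C
  let B : ℕ → {B : IntermediateField k Ω // Pool.Agent.H451R6.FG B ∧ L₀ ≤ B} := fun n =>
    Nat.rec ⟨M, hM, hLM⟩ (fun i b => ⟨b.1 ⊔ c i b.1 b.2.1 b.2.2,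
      fg_sup b.2.1 (hc i b.1 b.2.1 b.2.2).1, b.2.2.trans le_sup_left⟩) n
  let E : ℕ → IntermediateField k Ω := fun i => c i (B i).1 (B i).2.1 (B i).2.2
  have hE : ∀ i, Pool.Agent.H451R6.FG (E i) ∧ (B i).1 ⊓ E i = L₀ ∧ Q i (E i) := fun i =>
    hc i (B i).1 (B i).2.1 (B i).2.2
  have hBs : ∀ i, (B (i + 1)).1 = (B i).1 ⊔ E i := fun i => rfl
  have hmono : Monotone fun i => (B i).1 := monotone_nat_of_le_succ fun i => by

    rw [hBs i]
    exact le_sup_left
  have hEB : ∀ i j, i < j → E i ≤ (B j).1 := fun i j hij =>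
    (show E i ≤ (B (i + 1)).1 by rw [hBs i]; exact le_sup_right).trans (hmono hij)
  refine ⟨E, fun i => ⟨(hE i).1, ?_, (hE i).2.2⟩, fun τ t hτ => ?_⟩
  · have h1 : (B i).1 ⊓ E i ≤ E i := inf_le_right
    rwa [(hE i).2.1] at h1
  let D : ℕ → Set Gal(Ω/k) := fun n =>
    {σ | τ⁻¹ * σ ∈ M.fixingSubgroup} ∩ ⋂ i ∈ Set.Iio n, {σ | (t i)⁻¹ * σ ∈ (E i).fixingSubgroup}
  have hmem : ∀ n σ, σ ∈ D n ↔ τ⁻¹ * σ ∈ M.fixingSubgroup ∧
      ∀ i < n, (t i)⁻¹ * σ ∈ (E i).fixingSubgroup := by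
    intro n σ
    simp [D]
  have hne : ∀ n, (D n).Nonempty := by
    intro n
    induction n with
    | zero =>
      refine ⟨τ, (hmem _ _).2 ⟨?_, fun i hi => absurd hi (Nat.not_lt_zero i)⟩⟩
      rw [inv_mul_cancel]
      exact one_mem _
    | succ n ih =>
      obtain ⟨σ, hσ⟩ := ih
      rw [hmem] at hσ
      obtain ⟨hσ1, hσ2⟩ := hσ
      obtain ⟨ρ, h1, h2⟩ := glueR (B n).1 (E n) (B n).2.1 (hE n).1 σ (t n) (by
        rw [(hE n).2.1]
        have h3 : (τ⁻¹ * σ)⁻¹ * (τ⁻¹ * t n) ∈ L₀.fixingSubgroup :=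
          mul_mem (inv_mem ((fixingSubgroup_le hLM) hσ1)) (hτ n)
        have h4 : (τ⁻¹ * σ)⁻¹ * (τ⁻¹ * t n) = σ⁻¹ * t n := by group
        rwa [h4] at h3)
      refine ⟨ρ, (hmem _ _).2 ⟨?_, ?_⟩⟩
      · have h3 : σ⁻¹ * ρ ∈ M.fixingSubgroup := (fixingSubgroup_le (hmono (Nat.zero_le n))) h1
        have h4 := mul_mem hσ1 h3
        rwa [mul_assoc, mul_inv_cancel_left] at h4
      · intro i hi
        rcases Nat.lt_succ_iff_lt_or_eq.1 hi with h | h
        · have h3 : σ⁻¹ * ρ ∈ (E i).fixingSubgroup := (fixingSubgroup_le (hEB i n h)) h1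
          have h4 := mul_mem (hσ2 i h) h3
          rwa [mul_assoc, mul_inv_cancel_left] at h4
        · subst h
          exact h2
  have hclosed : ∀ n, IsClosed (D n) := fun n =>
    (closed_coset M hM τ).inter (isClosed_biInter fun i _ => closed_coset (E i) (hE i).1 (t i))
  have hdec : ∀ n, D (n + 1) ⊆ D n := fun n σ hσ => by
    rw [hmem] at hσ ⊢
    exact ⟨hσ.1, fun i hi => hσ.2 i (by omega)⟩
  obtain ⟨σ, hσ⟩ := IsCompact.nonempty_iInter_of_sequence_nonempty_isCompact_isClosed D hdec hne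
    (hclosed 0).isCompact hclosed
  rw [Set.mem_iInter] at hσ
  exact ⟨σ, ((hmem _ _).1 (hσ 0)).1,
    fun i => ((hmem _ _).1 (hσ (i + 1))).2 i (Nat.lt_succ_self i)⟩

end

end Pool.Agent.TH377.IG
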