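import Mathlib
import Pool.Agent.H33R2.V3
import Pool.Agent.W200.IJ.CE
import Pool.Agent.H391R2.T4.Red

/-!
# The specialisation property of embedding problems
-/

set_option autoImplicit false

namespace Pool.Agent.TH377.IG

open Polynomial
open Pool.Agent.H391R2.T4 (HilbField)

/-- A solution over `K(t)` of an embedding problem over `K` gives a proper solution over `K`. -/
def SpecProp (K : Type) [Field K] : Prop :=
  ∀ (L : Type) [Field L] [Algebra K L] [FiniteDimensional K L] [IsGalois K L]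
    (G : Type) [Group G] [Finite G] (α : G →* (L ≃ₐ[K] L)),
    (∃ (F : Type) (_ : Field F) (_ : Algebra (RatFunc K) F) (_ : Algebra L F)
        (_ : Algebra K F) (_ : IsScalarTower K (RatFunc K) F) (_ : IsScalarTower K L F)
        (_ : FiniteDimensional (RatFunc K) F) (_ : IsGalois (RatFunc K) F)
        (γ : (F ≃ₐ[RatFunc K] F) ≃* G),
        (∀ (σ : F ≃ₐ[RatFunc K] F) (x : L),
            σ (algebraMap L F x) = algebraMap L F (α (γ σ) x))) →
    ∃ (F : Type) (_ : Field F) (_ : Algebra K F) (_ : Algebra L F)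
          (_ : IsScalarTower K L F),
          FiniteDimensional K F ∧ IsGalois K F ∧
          ∃ γ : (F ≃ₐ[K] F) ≃* G, ∀ σ : F ≃ₐ[K] F, α (γ σ) = σ.restrictNormal L

theorem spec_hilb {K : Type} [Field K] (hK : HilbField K) : SpecProp K :=
  fun L _ _ _ _ G _ _ α h => H33.hilbert_spec K hK L G α h

/-- Rational function fields over finite fields. -/
theorem spec_ratFunc (κ : Type) [Field κ] [Finite κ] : SpecProp (RatFunc κ) := by
  intro L _ _ _ _ G _ _ α h
  obtain ⟨F, i1, i2, i3, i4, i5, i6, i7, i8, γ, hγ⟩ := h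
  have hp : Pool.Agent.W200.IG.HP (RatFunc κ) (RatFunc κ) :=
    Pool.Agent.W200.IG.hp_base (κ := κ) (RatFunc κ)
  obtain ⟨Λ, l1, l2, l3, l4, e, ψ', h1, h2⟩ := Pool.Agent.W200.IJ.galois_spec2 (K := RatFunc κ)
    (A := Polynomial (RatFunc κ)) (F := RatFunc (RatFunc κ)) (N := F)
    (Pool.Agent.W200.IG.sp_poly hp (Pool.Agent.W200.IG.sp_base (RatFunc κ)))
    (k₀ := RatFunc κ) (M := L) (fun c => by
      rw [← IsScalarTower.algebraMap_apply (RatFunc κ) L F]
      change algebraMap (RatFunc κ) F c = algebraMap (RatFunc (RatFunc κ)) F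
        (algebraMap (RatFunc κ)[X] (RatFunc (RatFunc κ)) (algebraMap (RatFunc κ) (RatFunc κ)[X] c))
      rw [← IsScalarTower.algebraMap_apply (RatFunc κ) (RatFunc κ)[X] (RatFunc (RatFunc κ)),
        ← IsScalarTower.algebraMap_apply (RatFunc κ) (RatFunc (RatFunc κ)) F])
  let aLΛ : Algebra L Λ := ψ'.toAlgebra
  have hψ : ∀ x : L, algebraMap L Λ x = ψ' x := fun _ => rfl
  have tLΛ : IsScalarTower (RatFunc κ) L Λ := IsScalarTower.of_algebraMap_eq fun x => (h1 x).symm
  refine ⟨Λ, l1, l2, aLΛ, tLΛ, l3, l4, e.symm.trans γ, fun σ' => ?_⟩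
  obtain ⟨σ, rfl⟩ := e.surjective σ'
  apply AlgEquiv.ext
  intro x
  apply (algebraMap L Λ).injective
  rw [AlgEquiv.restrictNormal_commutes]
  change ψ' (α (γ (e.symm (e σ))) x) = e σ (ψ' x)
  rw [MulEquiv.symm_apply_apply]
  exact (h2 σ x _ (hγ σ x)).symm

end Pool.Agent.TH377.IG
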