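import Mathlib
import Pool.Agent.TH377.IG.Bc2
import Pool.Agent.TH377.IG.Rel
import Pool.Agent.TH377.IG.Spec

/-!
# Infinite fibre products of embedding problems over Hilbertian fields
-/

set_option autoImplicit false

namespace Pool.Agent.TH377.IG

open IntermediateField AlgEquiv
open Pool.Agent.H391R2.T4 (exists_equiv_of_ker RegSol HilbField)

/-- One step: a proper solution which is disjoint from a given extension. -/
theorem stepS {K Ω : Type} [Field K] [Field Ω] [Algebra K Ω] [IsGalois K Ω] [IsSepClosed Ω]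
    (hK : SpecProp K) (L H : Type) [Field L] [Algebra K L] [FiniteDimensional K L]
    [IsGalois K L] [Group H] [Finite H] (α : H →* (L ≃ₐ[K] L)) (hreg : RegSol K L H α)
    (ι : L →ₐ[K] Ω) (B : IntermediateField K Ω) (hB : Pool.Agent.H451R6.FG B)
    (hLB : ι.fieldRange ≤ B) :
    ∃ E : IntermediateField K Ω, Pool.Agent.H451R6.FG E ∧ B ⊓ E = ι.fieldRange ∧
      ∃ q : Gal(Ω/K) →* H, Function.Surjective q ∧ q.ker = E.fixingSubgroup ∧
        ∀ (σ : Gal(Ω/K)) (x : L), σ (ι x) = ι (α (q σ) x) := by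
  classical
  have hBf : FiniteDimensional K B := hB.1
  have hBg : IsGalois K B := hB.2
  have hιB : ∀ x : L, ι x ∈ B := fun x => hLB ⟨x, rfl⟩
  let aLB : Algebra L B := ((ι : L →+* Ω).codRestrict B hιB).toAlgebra
  have hLBv : ∀ x : L, ((algebraMap L B x : B) : Ω) = ι x := fun _ => rfl
  have tLB : IsScalarTower K L B := IsScalarTower.of_algebraMap_eq fun x => by
    apply Subtype.ext
    rw [hLBv, ι.commutes]
    rfl
  obtain ⟨F, i1, i2, i3, i4, i5, i6, i7, i8, γ, hγ⟩ := base_change K L H α hreg B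
  let resL : (B ≃ₐ[K] B) →* (L ≃ₐ[K] L) := restrictNormalHom L
  have hresL : ∀ (ρ : B ≃ₐ[K] B) (x : L), algebraMap L B (resL ρ x) = ρ (algebraMap L B x) :=
    fun ρ x => restrictNormal_commutes ρ L x
  obtain ⟨F', j1, j2, j3, j4, j5, j6, γ', hγ'⟩ := hK B (FP α resL)
    (prFP α resL) ⟨F, i1, i2, i3, i4, i5, i6, i7, i8, γ, hγ⟩
  have hs : Algebra.IsSeparable B F' := Algebra.isSeparable_tower_top_of_isSeparable K B F'
  let j : F' →ₐ[B] Ω := IsSepClosed.lift
  let aFΩ : Algebra F' Ω := (j : F' →+* Ω).toAlgebra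
  have hjv : ∀ x : F', algebraMap F' Ω x = j x := fun _ => rfl
  have tKFΩ : IsScalarTower K F' Ω := IsScalarTower.of_algebraMap_eq fun x => by
    rw [hjv, IsScalarTower.algebraMap_apply K B F', j.commutes,
      ← IsScalarTower.algebraMap_apply K B Ω]
  let resF : Gal(Ω/K) →* (F' ≃ₐ[K] F') := restrictNormalHom F'
  have hresF : ∀ (σ : Gal(Ω/K)) (x : F'), j (resF σ x) = σ (j x) := fun σ x =>
    restrictNormal_commutes σ F' x
  have hresFs : Function.Surjective resF := restrictNormalHom_surjective Ω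
  let ϖ : Gal(Ω/K) →* FP α resL := γ'.toMonoidHom.comp resF
  have hϖs : Function.Surjective ϖ := γ'.surjective.comp hresFs
  let q : Gal(Ω/K) →* H := (MonoidHom.fst H (B ≃ₐ[K] B)).comp ((FP α resL).subtype.comp ϖ)
  have hq : ∀ σ, q σ = (ϖ σ : H × (B ≃ₐ[K] B)).1 := fun _ => rfl
  have hϖB : ∀ (σ : Gal(Ω/K)) (b : B), σ (b : Ω) = ((ϖ σ : H × (B ≃ₐ[K] B)).2 b : Ω) := by
    intro σ b
    have h1 : (b : Ω) = j (algebraMap B F' b) := (j.commutes b).symm
    have h2 : (ϖ σ : H × (B ≃ₐ[K] B)).2 = (resF σ).restrictNormal B := hγ' (resF σ)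
    rw [h1, ← hresF, h2]
    have h3 := restrictNormal_commutes (resF σ) B b
    rw [← h3]
    exact j.commutes _
  have hαq : ∀ σ : Gal(Ω/K), α (q σ) = resL (ϖ σ : H × (B ≃ₐ[K] B)).2 := fun σ => (ϖ σ).2
  have hact : ∀ (σ : Gal(Ω/K)) (x : L), σ (ι x) = ι (α (q σ) x) := by
    intro σ x
    rw [← hLBv, hϖB, ← hresL, ← hαq]
    exact hLBv _
  have hqs : Function.Surjective q := by
    intro h
    obtain ⟨ρ, hρ⟩ := restrictNormalHom_surjective (F := K) (K₁ := L) B (α h)
    obtain ⟨σ, hσ⟩ := hϖs ⟨(h, ρ), hρ.symm⟩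
    refine ⟨σ, ?_⟩
    rw [hq, hσ]
  -- the kernel is open
  let R : IntermediateField K Ω := (j.restrictScalars K).fieldRange
  have hRf : FiniteDimensional K R :=
    LinearEquiv.finiteDimensional (j.restrictScalars K).equivFieldRange.toLinearEquiv
  have hRo : IsOpen (R.fixingSubgroup : Set Gal(Ω/K)) := R.fixingSubgroup_isOpen
  have hRq : R.fixingSubgroup ≤ q.ker := by
    intro σ hσ
    rw [MonoidHom.mem_ker]
    have h1 : resF σ = 1 := by
      apply AlgEquiv.ext
      intro x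
      apply (algebraMap F' Ω).injective
      change j (resF σ x) = j x
      rw [hresF]
      exact (IntermediateField.mem_fixingSubgroup_iff _ _).1 hσ (j x) ⟨x, rfl⟩
    have h2 : ϖ σ = 1 := by
      change γ' (resF σ) = 1
      rw [h1, map_one]
    rw [hq, h2]
    rfl
  have hqo : IsOpen (q.ker : Set Gal(Ω/K)) := Subgroup.isOpen_mono hRq hRo
  have hqc : IsClosed (q.ker : Set Gal(Ω/K)) := Subgroup.isClosed_of_isOpen _ hqo
  let E : IntermediateField K Ω := fixedField q.ker
  have hE : q.ker = E.fixingSubgroup :=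
    (InfiniteGalois.fixingSubgroup_fixedField (⟨q.ker, hqc⟩ : ClosedSubgroup Gal(Ω/K))).symm
  have hEfg : Pool.Agent.H451R6.FG E := by
    refine fg_of_open E ?_ ?_
    · rw [← hE]
      exact hqo
    · rw [← hE]
      infer_instance
  refine ⟨E, hEfg, le_antisymm ?_ ?_, q, hqs, hE, hact⟩
  · intro x hx
    rw [IntermediateField.mem_inf] at hx
    rw [← InfiniteGalois.fixedField_fixingSubgroup ι.fieldRange,
      IntermediateField.mem_fixedField_iff]
    intro σ hσ
    have h1 : α (q σ) = 1 := by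
      apply AlgEquiv.ext
      intro y
      apply ι.injective
      change ι _ = ι _
      rw [← hact]
      exact (IntermediateField.mem_fixingSubgroup_iff _ _).1 hσ (ι y) ⟨y, rfl⟩
    obtain ⟨σ', hσ'⟩ := hϖs ⟨(q σ, 1), by
      rw [mem_FP]
      change α (q σ) = resL 1
      rw [h1, map_one]⟩
    have h2 : σ' x = x := by
      have h3 := hϖB σ' ⟨x, hx.1⟩
      rw [hσ'] at h3
      exact h3
    have h3 : σ'⁻¹ * σ ∈ E.fixingSubgroup := by
      rw [← hE, MonoidHom.mem_ker, map_mul, map_inv, inv_mul_eq_one, hq, hσ']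
    have h4 : (σ'⁻¹ * σ) x = x := (IntermediateField.mem_fixingSubgroup_iff _ _).1 h3 x hx.2
    have h5 : σ' ((σ'⁻¹ * σ) x) = σ x := by
      change (σ' * (σ'⁻¹ * σ)) x = σ x
      rw [mul_inv_cancel_left]
    rw [h4, h2] at h5
    exact h5.symm
  · rintro _ ⟨x, rfl⟩
    rw [IntermediateField.mem_inf]
    refine ⟨hιB x, ?_⟩
    change ι x ∈ fixedField q.ker
    rw [IntermediateField.mem_fixedField_iff]
    intro σ hσ
    rw [MonoidHom.mem_ker] at hσ
    have h1 := hact σ x
    rw [hσ, map_one] at h1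
    exact h1

/-- The infinite fibre product. -/
def FPI {J Γ : Type} {H : J → Type} [∀ i, Group (H i)] [Group Γ] (α : ∀ i, H i →* Γ) :
    Subgroup ((∀ i, H i) × Γ) where
  carrier := {p | ∀ i, α i (p.1 i) = p.2}
  one_mem' := fun i => map_one (α i)
  mul_mem' := by
    intro a b ha hb i
    change α i (a.1 i * b.1 i) = a.2 * b.2
    rw [map_mul, ha, hb]
  inv_mem' := by
    intro a ha i
    change α i (a.1 i)⁻¹ = a.2⁻¹
    rw [map_inv, ha]

theorem inf_spec {K : Type} [Field K] (hK : SpecProp K) (L : Type) [Field L] [Algebra K L]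
    [FiniteDimensional K L] [IsGalois K L] (J : Type) [Countable J] (H : J → Type)
    [∀ i, Group (H i)] [∀ i, Finite (H i)] (α : ∀ i, H i →* (L ≃ₐ[K] L))
    (hreg : ∀ i, RegSol K L (H i) (α i)) :
    ∃ (F : Type) (_ : Field F) (_ : Algebra K F) (_ : Algebra L F) (_ : IsScalarTower K L F)
      (_ : IsGalois K F) (γ : (F ≃ₐ[K] F) ≃* FPI α),
      (∀ i, IsOpen {σ : F ≃ₐ[K] F | (γ σ : (∀ i, H i) × (L ≃ₐ[K] L)).1 i = 1}) ∧
      ∀ (σ : F ≃ₐ[K] F) (x : L), σ (algebraMap L F x) =
        algebraMap L F ((γ σ : (∀ i, H i) × (L ≃ₐ[K] L)).2 x) := by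
  classical
  let Ω := SeparableClosure K
  have hΩ : IsGalois K Ω := inferInstance
  have hΩs : IsSepClosed Ω := inferInstance
  let ι : L →ₐ[K] Ω := IsSepClosed.lift
  have hLf : FiniteDimensional K ι.fieldRange :=
    LinearEquiv.finiteDimensional ι.equivFieldRange.toLinearEquiv
  have hLg : IsGalois K ι.fieldRange := IsGalois.of_algEquiv ι.equivFieldRange
  have hL₀ : Pool.Agent.H451R6.FG ι.fieldRange := ⟨hLf, hLg⟩
  obtain ⟨f, hf⟩ := exists_injective_nat J
  obtain ⟨E, hE, hsur⟩ := exists_seqR ι.fieldRange ι.fieldRange hL₀ le_rfl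
    (fun m E => ∀ i, f i = m → ∃ q : Gal(Ω/K) →* H i, Function.Surjective q ∧
      q.ker = E.fixingSubgroup ∧ ∀ (σ : Gal(Ω/K)) (x : L), σ (ι x) = ι (α i (q σ) x))
    (by
      intro m B hB hLB
      by_cases hm : ∃ i, f i = m
      · obtain ⟨i, rfl⟩ := hm
        obtain ⟨E, h1, h2, h3⟩ := stepS hK L (H i) (α i) (hreg i) ι B hB hLB
        refine ⟨E, h1, h2, fun i' hi' => ?_⟩
        obtain rfl := hf hi'
        exact h3
      · exact ⟨ι.fieldRange, hL₀, inf_eq_right.2 hLB, fun i hi => absurd ⟨i, hi⟩ hm⟩)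
  have hq : ∀ i, ∃ q : Gal(Ω/K) →* H i, Function.Surjective q ∧
      q.ker = (E (f i)).fixingSubgroup ∧ ∀ (σ : Gal(Ω/K)) (x : L), σ (ι x) = ι (α i (q σ) x) :=
    fun i => (hE (f i)).2.2 i rfl
  choose q hq1 hq2 hq3 using hq
  -- the restriction to `L`
  let aLΩ : Algebra L Ω := (ι : L →+* Ω).toAlgebra
  have hLΩ : ∀ x : L, algebraMap L Ω x = ι x := fun _ => rfl
  have tLΩ : IsScalarTower K L Ω := IsScalarTower.of_algebraMap_eq fun x => (ι.commutes x).symm
  let res : Gal(Ω/K) →* (L ≃ₐ[K] L) := restrictNormalHom L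
  have hres : ∀ (σ : Gal(Ω/K)) (x : L), ι (res σ x) = σ (ι x) := fun σ x =>
    restrictNormal_commutes σ L x
  have hress : Function.Surjective res := restrictNormalHom_surjective Ω
  have hαq : ∀ i σ, α i (q i σ) = res σ := by
    intro i σ
    apply AlgEquiv.ext
    intro x
    apply ι.injective
    change ι _ = ι _
    rw [hres, hq3 i]
  have hreseq : ∀ σ τ : Gal(Ω/K), res σ = res τ ↔ σ⁻¹ * τ ∈ ι.fieldRange.fixingSubgroup := by
    intro σ τ
    rw [← inv_mul_eq_one, ← map_inv, ← map_mul, IntermediateField.mem_fixingSubgroup_iff]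
    constructor
    · rintro h _ ⟨x, rfl⟩
      change (σ⁻¹ * τ) (ι x) = ι x
      rw [← hres, h]
      rfl
    · intro h
      apply AlgEquiv.ext
      intro x
      apply ι.injective
      change ι _ = ι _
      rw [hres]
      exact h (ι x) ⟨x, rfl⟩
  let ϖ : Gal(Ω/K) →* FPI α := MonoidHom.codRestrict ((MonoidHom.pi q).prod res) (FPI α)
    (fun σ i => hαq i σ)
  have hϖ : ∀ σ, (ϖ σ : (∀ i, H i) × (L ≃ₐ[K] L)) = (fun i => q i σ, res σ) := fun _ => rfl
  have hϖs : Function.Surjective ϖ := by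
    rintro ⟨⟨h, ρ⟩, hp⟩
    have hp' : ∀ i, α i (h i) = ρ := hp
    obtain ⟨τ, hτ⟩ := hress ρ
    have h1 : ∀ i, ∃ t, q i t = h i := fun i => hq1 i (h i)
    choose t ht using h1
    obtain ⟨σ, hσ1, hσ2⟩ := hsur τ (Function.extend f t fun _ => τ) (by
      intro m
      by_cases hm : ∃ i, f i = m
      · obtain ⟨i, rfl⟩ := hm
        rw [hf.extend_apply, ← hreseq, hτ, ← hαq i, ht, hp']
      · rw [Function.extend_apply' _ _ _ hm, inv_mul_cancel]
        exact one_mem _)
    refine ⟨σ, ?_⟩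
    apply Subtype.ext
    rw [hϖ]
    apply Prod.ext
    · funext i
      change q i σ = h i
      have h2 := hσ2 (f i)
      rw [hf.extend_apply, ← hq2, MonoidHom.mem_ker, map_mul, map_inv, inv_mul_eq_one, ht] at h2
      exact h2.symm
    · change res σ = ρ
      rw [← hτ]
      exact ((hreseq τ σ).2 hσ1).symm
  -- the compositum
  let F : IntermediateField K Ω := ι.fieldRange ⊔ ⨆ i, E (f i)
  have hFfix : ∀ σ : Gal(Ω/K), σ ∈ F.fixingSubgroup ↔
      σ ∈ ι.fieldRange.fixingSubgroup ∧ ∀ i, σ ∈ (E (f i)).fixingSubgroup := by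
    intro σ
    constructor
    · intro h
      exact ⟨(fixingSubgroup_le le_sup_left) h, fun i =>
        (fixingSubgroup_le ((le_iSup (fun i => E (f i)) i).trans le_sup_right)) h⟩
    · rintro ⟨h1, h2⟩
      have h3 : F ≤ fixedField (Subgroup.zpowers σ) := by
        refine sup_le (fun x hx => ?_) (iSup_le fun i x hx => ?_)
        · rw [IntermediateField.mem_fixedField_iff]
          intro g hg
          exact (IntermediateField.mem_fixingSubgroup_iff _ _).1
            ((Subgroup.zpowers_le.2 h1) hg) x hx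
        · rw [IntermediateField.mem_fixedField_iff]
          intro g hg
          exact (IntermediateField.mem_fixingSubgroup_iff _ _).1
            ((Subgroup.zpowers_le.2 (h2 i)) hg) x hx
      rw [IntermediateField.mem_fixingSubgroup_iff]
      intro x hx
      exact (IntermediateField.mem_fixedField_iff _ _).1 (h3 hx) σ (Subgroup.mem_zpowers σ)
  have hker : ϖ.ker = F.fixingSubgroup := by
    ext σ
    rw [hFfix, MonoidHom.mem_ker]
    constructor
    · intro h
      have h1 := congrArg Subtype.val h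
      rw [hϖ] at h1
      have h2 : (fun i => q i σ) = 1 := congrArg Prod.fst h1
      have h3 : res σ = 1 := congrArg Prod.snd h1
      refine ⟨?_, fun i => ?_⟩
      · have h4 := (hreseq 1 σ).1 (by rw [map_one, h3])
        rwa [inv_one, one_mul] at h4
      · rw [← hq2, MonoidHom.mem_ker]
        exact congrFun h2 i
    · rintro ⟨h1, h2⟩
      apply Subtype.ext
      rw [hϖ]
      apply Prod.ext
      · funext i
        change q i σ = 1
        rw [← MonoidHom.mem_ker, hq2]
        exact h2 i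
      · change res σ = 1
        have h4 := (hreseq 1 σ).2 (by rwa [inv_one, one_mul])
        rw [← h4, map_one]
  have hFn : F.fixingSubgroup.Normal := by
    rw [← hker]
    infer_instance
  have hFg : IsGalois K F := (InfiniteGalois.normal_iff_isGalois F).1 hFn
  have hker' : (restrictNormalHom (F := K) (K₁ := Ω) F).ker = ϖ.ker := by
    rw [restrictNormalHom_ker, hker]
  obtain ⟨γ, hγ⟩ := exists_equiv_of_ker (restrictNormalHom (F := K) (K₁ := Ω) F) ϖ
    (restrictNormalHom_surjective Ω) hϖs hker'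
  have hιF : ∀ x : L, ι x ∈ F := fun x => (le_sup_left : ι.fieldRange ≤ F) ⟨x, rfl⟩
  let aLF : Algebra L F := ((ι : L →+* Ω).codRestrict F hιF).toAlgebra
  have hLFv : ∀ x : L, ((algebraMap L F x : F) : Ω) = ι x := fun _ => rfl
  have tLF : IsScalarTower K L F := IsScalarTower.of_algebraMap_eq fun x => by
    apply Subtype.ext
    rw [hLFv, ι.commutes]
    rfl
  refine ⟨F, inferInstance, inferInstance, aLF, tLF, hFg, γ, fun i => ?_, fun σ' x => ?_⟩
  · have hcont := InfiniteGalois.restrictNormalHom_continuous (k := K) (K := Ω) F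
    have hquot := (hcont.isClosedMap).isQuotientMap hcont (restrictNormalHom_surjective Ω)
    rw [← hquot.isOpen_preimage]
    have h1 : (restrictNormalHom (F := K) (K₁ := Ω) F) ⁻¹'
        {σ : F ≃ₐ[K] F | (γ σ : (∀ i, H i) × (L ≃ₐ[K] L)).1 i = 1} =
        ((E (f i)).fixingSubgroup : Set Gal(Ω/K)) := by
      ext σ
      rw [Set.mem_preimage, Set.mem_ofPred_eq, hγ, SetLike.mem_coe, ← hq2, MonoidHom.mem_ker]
      rfl
    rw [h1]
    exact fg_open (hE (f i)).1
  · obtain ⟨σ, rfl⟩ := restrictNormalHom_surjective (F := K) (K₁ := F) Ω σ'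
    apply Subtype.ext
    have h1 := restrictNormal_commutes σ F (algebraMap L F x)
    refine h1.trans ?_
    rw [hγ]
    change σ (ι x) = ι (res σ x)
    rw [hres]

theorem inf_hilb {K : Type} [Field K] (hK : HilbField K) (L : Type) [Field L] [Algebra K L]
    [FiniteDimensional K L] [IsGalois K L] (J : Type) [Countable J] (H : J → Type)
    [∀ i, Group (H i)] [∀ i, Finite (H i)] (α : ∀ i, H i →* (L ≃ₐ[K] L))
    (hreg : ∀ i, RegSol K L (H i) (α i)) :
    ∃ (F : Type) (_ : Field F) (_ : Algebra K F) (_ : Algebra L F) (_ : IsScalarTower K L F)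
      (_ : IsGalois K F) (γ : (F ≃ₐ[K] F) ≃* FPI α),
      (∀ i, IsOpen {σ : F ≃ₐ[K] F | (γ σ : (∀ i, H i) × (L ≃ₐ[K] L)).1 i = 1}) ∧
      ∀ (σ : F ≃ₐ[K] F) (x : L), σ (algebraMap L F x) =
        algebraMap L F ((γ σ : (∀ i, H i) × (L ≃ₐ[K] L)).2 x) :=
  inf_spec (spec_hilb hK) L J H α hreg

end Pool.Agent.TH377.IG
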