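import Mathlib
import Pool.Agent.TH15.IGP.Tow
import Pool.Agent.TH377.IG.HilbInf

/-!
# Infinite towers of embedding problems, with invariants
-/

set_option autoImplicit false

namespace Pool.Agent.TH377.IG

open IntermediateField AlgEquiv
open Pool.Agent.TH15.IGP (Lim exists_lim)
open Pool.Agent.H391R2.T4 (RegSol HilbField)

section

variable {k Ω : Type} [Field k] [Field Ω] [Algebra k Ω]

/-- A sequence of compatible epimorphisms with an invariant. -/
theorem exists_hom_seqP {W : ℕ → Type} [∀ i, Group (W i)] (p : ∀ i, W (i + 1) →* W i)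
    (P : Subgroup Gal(Ω/k) → Prop)
    (C : ∀ (i : ℕ) (f : Gal(Ω/k) →* W i), Function.Surjective f →
      IsOpen (f.ker : Set Gal(Ω/k)) → P f.ker →
      ∃ f' : Gal(Ω/k) →* W (i + 1), Function.Surjective f' ∧
        IsOpen (f'.ker : Set Gal(Ω/k)) ∧ P f'.ker ∧ ∀ σ, p i (f' σ) = f σ)
    (f₀ : Gal(Ω/k) →* W 0) (h₀ : Function.Surjective f₀) (h₀' : IsOpen (f₀.ker : Set Gal(Ω/k)))
    (hP : P f₀.ker) :
    ∃ f : ∀ i, Gal(Ω/k) →* W i, f 0 = f₀ ∧ (∀ i, Function.Surjective (f i)) ∧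
      (∀ i, IsOpen ((f i).ker : Set Gal(Ω/k))) ∧ (∀ i, P (f i).ker) ∧
      ∀ i σ, p i (f (i + 1) σ) = f i σ := by
  classical
  choose c hc1 hc2 hc3 hc4 using C
  let F : ∀ n, {f : Gal(Ω/k) →* W n // Function.Surjective f ∧
      IsOpen (f.ker : Set Gal(Ω/k)) ∧ P f.ker} :=
    fun n => Nat.rec ⟨f₀, h₀, h₀', hP⟩ (fun i f => ⟨c i f.1 f.2.1 f.2.2.1 f.2.2.2,
      hc1 i f.1 f.2.1 f.2.2.1 f.2.2.2, hc2 i f.1 f.2.1 f.2.2.1 f.2.2.2,
      hc3 i f.1 f.2.1 f.2.2.1 f.2.2.2⟩) n
  exact ⟨fun i => (F i).1, rfl, fun i => (F i).2.1, fun i => (F i).2.2.1, fun i => (F i).2.2.2,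
    fun i σ => hc4 i (F i).1 (F i).2.1 (F i).2.2.1 (F i).2.2.2 σ⟩

/-- The tower theorem. -/
theorem towerP [IsGalois k Ω] {W : ℕ → Type} [∀ i, Group (W i)] (p : ∀ i, W (i + 1) →* W i)
    (P : Subgroup Gal(Ω/k) → Prop)
    (C : ∀ (i : ℕ) (f : Gal(Ω/k) →* W i), Function.Surjective f →
      IsOpen (f.ker : Set Gal(Ω/k)) → P f.ker →
      ∃ f' : Gal(Ω/k) →* W (i + 1), Function.Surjective f' ∧
        IsOpen (f'.ker : Set Gal(Ω/k)) ∧ P f'.ker ∧ ∀ σ, p i (f' σ) = f σ)
    (f₀ : Gal(Ω/k) →* W 0) (h₀ : Function.Surjective f₀) (h₀' : IsOpen (f₀.ker : Set Gal(Ω/k)))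
    (hP : P f₀.ker) :
    ∃ (L : IntermediateField k Ω) (_ : IsGalois k L) (e : Gal(L/k) ≃* Lim p),
      (∀ σ : Gal(Ω/k), (e (restrictNormalHom L σ)).1 0 = f₀ σ) ∧
      (∀ i, IsOpen {σ : Gal(L/k) | (e σ).1 i = 1}) ∧
      ∀ y ∈ L, ∃ N : Subgroup Gal(Ω/k), P N ∧ y ∈ fixedField N := by
  classical
  obtain ⟨f, hf0, hfs, hfo, hfP, hfp⟩ := exists_hom_seqP p P C f₀ h₀ h₀' hP
  obtain ⟨L, hL, e, he⟩ := exists_lim p f hfs hfo hfp
  refine ⟨L, hL, e, fun σ => by rw [he, hf0], fun i => ?_, fun y hy => ?_⟩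
  · have hcont := InfiniteGalois.restrictNormalHom_continuous (k := k) (K := Ω) L
    have hquot := (hcont.isClosedMap).isQuotientMap hcont (restrictNormalHom_surjective Ω)
    rw [← hquot.isOpen_preimage]
    have h1 : (restrictNormalHom (F := k) (K₁ := Ω) L) ⁻¹' {σ : Gal(L/k) | (e σ).1 i = 1} =
        ((f i).ker : Set Gal(Ω/k)) := by
      ext σ
      rw [Set.mem_preimage, Set.mem_ofPred_eq, he, SetLike.mem_coe, MonoidHom.mem_ker]
    rw [h1]
    exact hfo i
  · have hyf : FiniteDimensional k k⟮y⟯ :=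
      IntermediateField.adjoin.finiteDimensional (Algebra.IsIntegral.isIntegral (R := k) y)
    have hSo : IsOpen ((k⟮y⟯.fixingSubgroup : Subgroup Gal(Ω/k)) : Set Gal(Ω/k)) :=
      k⟮y⟯.fixingSubgroup_isOpen
    by_contra hcon
    push Not at hcon
    have hne : ∀ i, (((f i).ker : Set Gal(Ω/k)) ∩
        ((k⟮y⟯.fixingSubgroup : Subgroup Gal(Ω/k)) : Set Gal(Ω/k))ᶜ).Nonempty := by
      intro i
      by_contra hem
      rw [Set.not_nonempty_iff_eq_empty] at hem
      apply hcon _ (hfP i)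
      rw [IntermediateField.mem_fixedField_iff]
      intro σ hσ
      have h1 : σ ∈ k⟮y⟯.fixingSubgroup := by
        by_contra h2
        have h3 : σ ∈ (((f i).ker : Set Gal(Ω/k)) ∩
          ((k⟮y⟯.fixingSubgroup : Subgroup Gal(Ω/k)) : Set Gal(Ω/k))ᶜ) := ⟨hσ, h2⟩
        rw [hem] at h3
        exact h3
      exact (IntermediateField.mem_fixingSubgroup_iff _ _).1 h1 y
        (IntermediateField.mem_adjoin_simple_self k y)
    have hcl : ∀ i, IsClosed (((f i).ker : Set Gal(Ω/k)) ∩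
        ((k⟮y⟯.fixingSubgroup : Subgroup Gal(Ω/k)) : Set Gal(Ω/k))ᶜ) := fun i =>
      (Subgroup.isClosed_of_isOpen _ (hfo i)).inter hSo.isClosed_compl
    obtain ⟨σ, hσ⟩ := IsCompact.nonempty_iInter_of_sequence_nonempty_isCompact_isClosed
      (fun i => ((f i).ker : Set Gal(Ω/k)) ∩
        ((k⟮y⟯.fixingSubgroup : Subgroup Gal(Ω/k)) : Set Gal(Ω/k))ᶜ)
      (fun i => Set.inter_subset_inter_left _ (fun σ hσ => by
        rw [SetLike.mem_coe, MonoidHom.mem_ker] at hσ ⊢
        rw [← hfp, hσ, map_one])) hne (hcl 0).isCompact hcl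
    rw [Set.mem_iInter] at hσ
    apply (hσ 0).2
    have h1 : restrictNormalHom L σ = 1 := by
      apply e.injective
      rw [map_one]
      apply Subtype.ext
      funext i
      rw [he]
      exact (hσ i).1
    have h2 : σ y = y := by
      have h3 := restrictNormal_commutes σ L ⟨y, hy⟩
      have h4 : σ.restrictNormal L = 1 := h1
      rw [h4] at h3
      exact h3.symm
    rw [SetLike.mem_coe, IntermediateField.mem_fixingSubgroup_iff]
    intro z hz
    have h3 : k⟮y⟯ ≤ fixedField (Subgroup.zpowers σ) := by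
      rw [IntermediateField.adjoin_simple_le_iff, IntermediateField.mem_fixedField_iff]
      intro g hg
      have h4 : Subgroup.zpowers σ ≤ MulAction.stabilizer Gal(Ω/k) y := by
        rw [Subgroup.zpowers_le]
        exact h2
      exact h4 hg
    exact (IntermediateField.mem_fixedField_iff _ _).1 (h3 hz) σ (Subgroup.mem_zpowers σ)

/-- The field attached to an epimorphism with open kernel. -/
theorem exists_fix [IsGalois k Ω] {W : Type} [Group W] (f : Gal(Ω/k) →* W)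
    (hf : Function.Surjective f) (ho : IsOpen (f.ker : Set Gal(Ω/k))) :
    ∃ (L : IntermediateField k Ω) (_ : FiniteDimensional k L) (_ : IsGalois k L)
      (ε : Gal(L/k) ≃* W), (∀ σ, ε (restrictNormalHom L σ) = f σ) ∧ L.fixingSubgroup = f.ker := by
  classical
  let H : ClosedSubgroup Gal(Ω/k) := ⟨f.ker, Subgroup.isClosed_of_isOpen _ ho⟩
  have hn : H.Normal := MonoidHom.normal_ker f
  have hfix : (fixedField H.1).fixingSubgroup = H.1 := InfiniteGalois.fixingSubgroup_fixedField H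
  have hgal : IsGalois k (fixedField H.1) := by
    rw [← InfiniteGalois.normal_iff_isGalois, hfix]
    exact hn
  have hfd : FiniteDimensional k (fixedField H.1) := by
    rw [← InfiniteGalois.isOpen_iff_finite, hfix]
    exact ho
  have hker : (restrictNormalHom (F := k) (K₁ := Ω) (fixedField H.1)).ker = f.ker := by
    rw [restrictNormalHom_ker, hfix]
  obtain ⟨γ, hγ⟩ := Pool.Agent.H391R2.T4.exists_equiv_of_ker
    (restrictNormalHom (F := k) (K₁ := Ω) (fixedField H.1)) f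
    (restrictNormalHom_surjective Ω) hf hker
  exact ⟨fixedField H.1, hfd, hgal, γ, hγ, hfix⟩

end

/-- One step, disjoint from a given finite Galois extension. -/
theorem stepW {K Ω : Type} [Field K] [Field Ω] [Algebra K Ω] [IsGalois K Ω] [IsSepClosed Ω]
    (hK : SpecProp K) {W W' : Type} [Group W] [Group W'] [Finite W'] (p : W' →* W)
    (h : ∀ (L : Type) [Field L] [Algebra K L] [FiniteDimensional K L] [IsGalois K L]
      (ε : (L ≃ₐ[K] L) ≃* W), RegSol K L W' (ε.symm.toMonoidHom.comp p))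
    (B : IntermediateField K Ω) (hB : Pool.Agent.H451R6.FG B)
    (f : Gal(Ω/K) →* W) (hf : Function.Surjective f) (ho : IsOpen (f.ker : Set Gal(Ω/K))) :
    ∃ f' : Gal(Ω/K) →* W', Function.Surjective f' ∧ IsOpen (f'.ker : Set Gal(Ω/K)) ∧
      (∀ σ, p (f' σ) = f σ) ∧
      (fixedField f.ker ⊔ B) ⊓ fixedField f'.ker = fixedField f.ker := by
  classical
  obtain ⟨L, hLf, hLg, ε, hε, hLker⟩ := exists_fix f hf ho
  have hL : fixedField f.ker = L := by
    rw [← hLker]
    exact InfiniteGalois.fixedField_fixingSubgroup L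
  have hLval : L.val.fieldRange = L := IntermediateField.fieldRange_val L
  obtain ⟨E, hE, hBE, q, hqs, hqk, hq⟩ := stepS hK L W' (ε.symm.toMonoidHom.comp p) (h L ε)
    L.val (L ⊔ B) (fg_sup ⟨hLf, hLg⟩ hB) (by rw [hLval]; exact le_sup_left)
  refine ⟨q, hqs, by rw [hqk]; exact fg_open hE, fun σ => ?_, ?_⟩
  · rw [← hε σ, ← ε.symm_apply_eq]
    apply AlgEquiv.ext
    intro x
    apply Subtype.ext
    have h1 := hq σ x
    have h2 := restrictNormal_commutes σ L x
    exact h1.symm.trans h2.symm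
  · rw [hL, hqk, InfiniteGalois.fixedField_fixingSubgroup, hBE, hLval]

end Pool.Agent.TH377.IG
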