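import Mathlib
import Pool.Agent.TH377.IG.TowInv

/-!
# The regular step over a finite field
-/

set_option autoImplicit false

namespace Pool.Agent.TH377.IG

open IntermediateField AlgEquiv Polynomial
open Pool.Agent.H391R2.T4 (RegSol HilbField)
open Pool.Agent.W200.IJ (deg_bound fin_const)
open Pool.Agent.H81R2.BT (ratFunc_alg)

/-- The constants of the fixed field of `N` are the elements of `S`. -/
def ConstIn (K : Type) [Field K] {Ω : Type} [Field Ω] [Algebra (RatFunc K) Ω] [Algebra K Ω]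
    (S : Set Ω) (N : Subgroup Gal(Ω/RatFunc K)) : Prop :=
  (∀ y ∈ S, ∀ σ ∈ N, σ y = y) ∧
    ∀ y ∈ fixedField N, IsAlgebraic K y → y ∈ S

/-- The regular step: solutions of embedding problems over `K(t)` can be chosen without new
constants. -/
def RegStep (K L Ω : Type) [Field K] [Field L] [Algebra K L] [Field Ω] [Algebra (RatFunc K) Ω]
    [Algebra K Ω] (j : L →ₐ[K] Ω) : Prop :=
  ∀ (W W' : Type) [Group W] [Group W'] [Finite W'] (p : W' →* W),
    (∀ (M : Type) [Field M] [Algebra (RatFunc K) M] [FiniteDimensional (RatFunc K) M]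
      [IsGalois (RatFunc K) M] (ε : (M ≃ₐ[RatFunc K] M) ≃* W),
      RegSol (RatFunc K) M W' (ε.symm.toMonoidHom.comp p)) →
    ∀ f : Gal(Ω/RatFunc K) →* W, Function.Surjective f →
      IsOpen (f.ker : Set Gal(Ω/RatFunc K)) → ConstIn K (Set.range j) f.ker →
      ∃ f' : Gal(Ω/RatFunc K) →* W', Function.Surjective f' ∧
        IsOpen (f'.ker : Set Gal(Ω/RatFunc K)) ∧ ConstIn K (Set.range j) f'.ker ∧
        ∀ σ, p (f' σ) = f σ

theorem regStep_fin (κ L : Type) [Field κ] [Finite κ] [Field L] [Algebra κ L]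
    (Ω : Type) [Field Ω] [Algebra (RatFunc κ) Ω] [IsGalois (RatFunc κ) Ω] [IsSepClosed Ω]
    [Algebra κ Ω] [IsScalarTower κ (RatFunc κ) Ω] (j : L →ₐ[κ] Ω) : RegStep κ L Ω j := by
  classical
  intro W W' _ _ _ p hp f hf ho hP
  let g : (RatFunc κ)[X] := X ^ (Nat.card κ) ^ (Nat.card W').factorial - X
  have hgsep : g.Separable := by
    cases nonempty_fintype κ
    obtain ⟨p0, hp0⟩ := CharP.exists κ
    have hpr : Fact p0.Prime := ⟨CharP.char_is_prime κ p0⟩
    have hpK : CharP (RatFunc κ) p0 := charP_of_injective_algebraMap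
      (algebraMap κ (RatFunc κ)).injective p0
    apply galois_poly_separable p0
    obtain ⟨m, hm⟩ := FiniteField.card κ p0
    rw [Nat.card_eq_fintype_card, hm.2]
    refine dvd_trans ?_ (dvd_pow_self _ (Nat.factorial_ne_zero _))
    exact dvd_pow_self _ m.2.ne'
  have hgs : (g.map (algebraMap (RatFunc κ) Ω)).Splits :=
    IsSepClosed.splits_codomain g hgsep
  let C : IntermediateField (RatFunc κ) Ω := IntermediateField.adjoin (RatFunc κ) (g.rootSet Ω)
  have hCs : g.IsSplittingField (RatFunc κ) C :=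
    IntermediateField.adjoin_rootSet_isSplittingField hgs
  have hC : Pool.Agent.H451R6.FG C :=
    ⟨Polynomial.IsSplittingField.finiteDimensional C g,
      IsGalois.of_separable_splitting_field hgsep⟩
  obtain ⟨f', h1, h2, h3, h4⟩ := stepW (spec_ratFunc κ) p hp C hC f hf ho
  have hle : f'.ker ≤ f.ker := by
    intro σ hσ
    rw [MonoidHom.mem_ker] at hσ ⊢
    rw [← h3, hσ, map_one]
  refine ⟨f', h1, h2, ⟨fun y hy σ hσ => hP.1 y hy σ (hle hσ), fun y hy hya => ?_⟩, h3⟩
  obtain ⟨F', hFf, hFg, ε, hε, hker⟩ := exists_fix f' h1 h2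
  have hF' : fixedField f'.ker = F' := by
    rw [← hker]
    exact InfiniteGalois.fixedField_fixingSubgroup F'
  apply hP.2 y _ hya
  rw [← h4, mem_inf]
  refine ⟨(le_sup_right : C ≤ _) ?_, hy⟩
  rw [hF'] at hy
  have sF : IsScalarTower κ F' Ω := IsScalarTower.of_algebraMap_eq fun x => rfl
  have hyF : IsAlgebraic κ (⟨y, hy⟩ : F') := by
    rw [← isAlgebraic_algebraMap_iff (algebraMap F' Ω).injective (A := Ω)]
    exact hya
  have hd := deg_bound (κ₀ := κ) (k := RatFunc κ) (F := F') (fun e he => by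
    obtain ⟨c, hc⟩ := ratFunc_alg e he
    exact ⟨c, hc⟩) ⟨y, hy⟩ hyF
  rw [Nat.card_congr ε.toEquiv] at hd
  have hd' : (minpoly κ y).natDegree ≤ Nat.card W' := by
    have h5 : minpoly κ y = minpoly κ (⟨y, hy⟩ : F') := minpoly.algebraMap_eq
      (B := F') (B' := Ω) (algebraMap F' Ω).injective (⟨y, hy⟩ : F')
    rw [h5]
    exact hd
  have hsplit : (X ^ (Nat.card κ) ^ (Nat.card W').factorial - X : C[X]).Splits := by
    have h5 := hCs.splits
    simp only [g, Polynomial.map_sub, Polynomial.map_pow, Polynomial.map_X] at h5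
    exact h5
  obtain ⟨z, hz⟩ := fin_const (κ₀ := κ) (κ' := C) (Λ := Ω) (algebraMap C Ω) (Nat.card W')
    hsplit y hya hd'
  rw [← hz]
  exact z.2

end Pool.Agent.TH377.IG
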