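import Mathlib
import Pool.Agent.TH377.IG.BertC
import Pool.Agent.TH377.IG.RegFin

/-!
# The regular step over an infinite field
-/

set_option autoImplicit false

namespace Pool.Agent.TH377.IG

open IntermediateField AlgEquiv Polynomial
open Pool.Agent.H391R2.T4 (RegSol HilbField)

theorem regStep_inf (K L : Type) [Field K] [Infinite K] [Field L] [Algebra K L]
    [FiniteDimensional K L] [IsGalois K L]
    (Ω : Type) [Field Ω] [Algebra (RatFunc K) Ω] [IsGalois (RatFunc K) Ω] [IsSepClosed Ω]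
    [Algebra K Ω] [IsScalarTower K (RatFunc K) Ω] (j : L →ₐ[K] Ω) : RegStep K L Ω j := by
  classical
  intro W W' _ _ _ p hp f hf ho hP
  obtain ⟨M, hMf, hMg, ε, hε, hMker⟩ := exists_fix f hf ho
  have hM : fixedField f.ker = M := by
    rw [← hMker]
    exact InfiniteGalois.fixedField_fixingSubgroup M
  have hjM : ∀ x : L, j x ∈ M := by
    intro x
    rw [← hM, IntermediateField.mem_fixedField_iff]
    exact fun σ hσ => hP.1 _ ⟨x, rfl⟩ σ hσ
  let aLM : Algebra L M := ((j : L →+* Ω).codRestrict M hjM).toAlgebra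
  have hLM : ∀ x : L, ((algebraMap L M x : M) : Ω) = j x := fun _ => rfl
  have tKRM : IsScalarTower K (RatFunc K) M := IsScalarTower.of_algebraMap_eq fun x =>
    Subtype.ext (IsScalarTower.algebraMap_apply K (RatFunc K) Ω x)
  have tKLM : IsScalarTower K L M := IsScalarTower.of_algebraMap_eq fun x => by
    apply Subtype.ext
    rw [hLM, j.commutes]
    rfl
  have tKMΩ : IsScalarTower K M Ω := IsScalarTower.of_algebraMap_eq fun x => rfl
  have hB : ∀ y : M, IsAlgebraic L y → y ∈ Set.range (algebraMap L M) := by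
    intro y hy
    have hyK : IsAlgebraic K y := hy.restrictScalars K
    obtain ⟨x, hx⟩ := hP.2 (y : Ω) (by rw [hM]; exact y.2) (hyK.algebraMap (A := Ω))
    exact ⟨x, Subtype.ext hx⟩
  let δ : (M ≃ₐ[RatFunc K] M) →* (L ≃ₐ[K] L) :=
    { toFun := fun ρ => restrictNormalHom L (ρ.restrictScalars K)
      map_one' := map_one (restrictNormalHom L : (M ≃ₐ[K] M) →* (L ≃ₐ[K] L))
      map_mul' := fun a b => map_mul (restrictNormalHom L : (M ≃ₐ[K] M) →* (L ≃ₐ[K] L))
        (a.restrictScalars K) (b.restrictScalars K) }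
  have hδ : ∀ (ρ : M ≃ₐ[RatFunc K] M) (x : L), ρ (algebraMap L M x) = algebraMap L M (δ ρ x) :=
    fun ρ x => (restrictNormal_commutes (ρ.restrictScalars K) L x).symm
  obtain ⟨F, i1, i2, i3, i4, i5, i6, i7, i8, γ, hγ, hreg⟩ := hp M ε
  obtain ⟨F', k1, k2, k3, k4, k5, k6, k7, k8, γ', hγ', hc⟩ := bert_aux K L M hB δ hδ W'
    (ε.symm.toMonoidHom.comp p) (RatFunc (RatFunc K)) F (fun c => by
      rw [← Polynomial.algebraMap_eq, ← IsScalarTower.algebraMap_apply (RatFunc K)
        (RatFunc K)[X] (RatFunc (RatFunc K)), ← IsScalarTower.algebraMap_apply (RatFunc K)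
        (RatFunc (RatFunc K)) F, ← IsScalarTower.algebraMap_apply (RatFunc K) M F]) γ hγ hreg
  have hs : Algebra.IsSeparable M F' :=
    Algebra.isSeparable_tower_top_of_isSeparable (RatFunc K) M F'
  have hfdM : FiniteDimensional M F' := FiniteDimensional.right (RatFunc K) M F'
  let j' : F' →ₐ[M] Ω := IsSepClosed.lift
  let aFΩ : Algebra F' Ω := (j' : F' →+* Ω).toAlgebra
  have hjv : ∀ x : F', algebraMap F' Ω x = j' x := fun _ => rfl
  have tRFΩ : IsScalarTower (RatFunc K) F' Ω := IsScalarTower.of_algebraMap_eq fun x => by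
    rw [hjv, IsScalarTower.algebraMap_apply (RatFunc K) M F', j'.commutes,
      ← IsScalarTower.algebraMap_apply (RatFunc K) M Ω]
  let r : Gal(Ω/RatFunc K) →* (F' ≃ₐ[RatFunc K] F') := restrictNormalHom F'
  have hr : ∀ (σ : Gal(Ω/RatFunc K)) (x : F'), σ (j' x) = j' (r σ x) := fun σ x =>
    (restrictNormal_commutes σ F' x).symm
  have hrs : Function.Surjective r := restrictNormalHom_surjective Ω
  let f' : Gal(Ω/RatFunc K) →* W' := γ'.toMonoidHom.comp r
  have hf' : ∀ σ, f' σ = γ' (r σ) := fun _ => rfl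
  have hker : ∀ σ, σ ∈ f'.ker ↔ r σ = 1 := fun σ => by
    rw [MonoidHom.mem_ker, hf', map_eq_one_iff γ' γ'.injective]
  let E' : IntermediateField (RatFunc K) Ω := (j'.restrictScalars (RatFunc K)).fieldRange
  have hE' : FiniteDimensional (RatFunc K) E' := Module.Finite.equiv
    (AlgEquiv.ofInjectiveField (j'.restrictScalars (RatFunc K))).toLinearEquiv
  have hfix : E'.fixingSubgroup = f'.ker := by
    ext σ
    rw [hker, IntermediateField.mem_fixingSubgroup_iff]
    constructor
    · intro h1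
      apply AlgEquiv.ext
      intro x
      apply (algebraMap F' Ω).injective
      exact (hr σ x).symm.trans (h1 _ ⟨x, rfl⟩)
    · rintro h1 _ ⟨x, rfl⟩
      change σ (j' x) = j' x
      rw [hr, h1]
      rfl
  have hpf : ∀ σ, p (f' σ) = f σ := by
    intro σ
    rw [← hε σ, ← ε.symm_apply_eq]
    apply AlgEquiv.ext
    intro b
    apply Subtype.ext
    have h1 := restrictNormal_commutes σ M b
    refine Eq.trans ?_ h1.symm
    have h2 : (b : Ω) = j' (algebraMap M F' b) := (j'.commutes b).symm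
    change ((ε.symm (p (f' σ)) b : M) : Ω) = σ (b : Ω)
    rw [h2, hr, hγ']
    exact (j'.commutes _).symm
  have hle : f'.ker ≤ f.ker := by
    intro σ hσ
    rw [MonoidHom.mem_ker] at hσ ⊢
    rw [← hpf, hσ, map_one]
  refine ⟨f', γ'.surjective.comp hrs, ?_, ⟨fun y hy σ hσ => hP.1 y hy σ (hle hσ), ?_⟩, hpf⟩
  · rw [← hfix]
    exact E'.fixingSubgroup_isOpen
  · intro y hy hya
    rw [← hfix, InfiniteGalois.fixedField_fixingSubgroup] at hy
    obtain ⟨z, rfl⟩ := hy
    change IsAlgebraic K (j' z) at hya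
    have s0 : IsScalarTower K F' Ω := IsScalarTower.of_algebraMap_eq fun x => by
      rw [IsScalarTower.algebraMap_apply K (RatFunc K) F',
        ← IsScalarTower.algebraMap_apply (RatFunc K) F' Ω,
        ← IsScalarTower.algebraMap_apply K (RatFunc K) Ω]
    have h1 : IsAlgebraic K (algebraMap F' Ω z) := hya
    rw [isAlgebraic_algebraMap_iff (algebraMap F' Ω).injective] at h1
    obtain ⟨x, rfl⟩ := hc z h1
    refine ⟨x, ?_⟩
    change j x = j' (algebraMap M F' (algebraMap L M x))
    rw [j'.commutes]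
    rfl

end Pool.Agent.TH377.IG
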