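import Mathlib
import Pool.Agent.TH377.IG.TowInv
import Pool.Agent.TH59.WX.UI

/-!
# Infinite towers of embedding problems with wreath product kernels
-/

set_option autoImplicit false

namespace Pool.Agent.TH377.IG

open IntermediateField AlgEquiv
open Pool.Agent.TH15.IGP (Lim)
open Pool.Agent.H391R2.T4 (RegSol HilbField)
open Pool.Agent.H391R2 (Wr)
open Pool.Agent.TH59.WX

theorem tower_spec {K : Type} [Field K] (hK : SpecProp K) (W : ℕ → Type) [∀ i, Group (W i)]
    [∀ i, Finite (W i)] (p : ∀ i, W (i + 1) →* W i)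
    (h : ∀ i, ∀ (L : Type) [Field L] [Algebra K L] [FiniteDimensional K L] [IsGalois K L]
      (ε : (L ≃ₐ[K] L) ≃* W i), RegSol K L (W (i + 1)) (ε.symm.toMonoidHom.comp (p i)))
    (L₀ : Type) [Field L₀] [Algebra K L₀] [FiniteDimensional K L₀] [IsGalois K L₀]
    (e₀ : W 0 ≃* (L₀ ≃ₐ[K] L₀)) :
    ∃ (F : Type) (_ : Field F) (_ : Algebra K F) (_ : Algebra L₀ F) (_ : IsScalarTower K L₀ F)
      (_ : IsGalois K F) (γ : (F ≃ₐ[K] F) ≃* Lim p),
      (∀ i, IsOpen {σ : F ≃ₐ[K] F | (γ σ).1 i = 1}) ∧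
      ∀ (σ : F ≃ₐ[K] F) (x : L₀),
        σ (algebraMap L₀ F x) = algebraMap L₀ F (e₀ ((γ σ).1 0) x) := by
  classical
  let Ω := SeparableClosure K
  let j : L₀ →ₐ[K] Ω := IsSepClosed.lift
  let aL : Algebra L₀ Ω := j.toRingHom.toAlgebra
  have hT : IsScalarTower K L₀ Ω := IsScalarTower.of_algebraMap_eq fun x => (j.commutes x).symm
  let r : Gal(Ω/K) →* (L₀ ≃ₐ[K] L₀) := restrictNormalHom L₀
  have hr : Function.Surjective r := restrictNormalHom_surjective Ω
  have hrc : ∀ (σ : Gal(Ω/K)) (x : L₀), σ (j x) = j (r σ x) := fun σ x =>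
    (AlgEquiv.restrictNormal_commutes σ L₀ x).symm
  let f₀ : Gal(Ω/K) →* W 0 := e₀.symm.toMonoidHom.comp r
  have hker : ∀ σ, f₀ σ = 1 ↔ r σ = 1 := fun σ => map_eq_one_iff e₀.symm e₀.symm.injective
  have ho : IsOpen (f₀.ker : Set Gal(Ω/K)) := by
    let E' : IntermediateField K Ω := (IsScalarTower.toAlgHom K L₀ Ω).fieldRange
    have hE' : FiniteDimensional K E' := Module.Finite.equiv
      (AlgEquiv.ofInjectiveField (IsScalarTower.toAlgHom K L₀ Ω)).toLinearEquiv
    refine Subgroup.isOpen_mono (H₁ := E'.fixingSubgroup) ?_ E'.fixingSubgroup_isOpen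
    intro σ hσ
    rw [MonoidHom.mem_ker, hker]
    apply AlgEquiv.ext
    intro x
    apply j.toRingHom.injective
    refine (hrc σ x).symm.trans ?_
    rw [IntermediateField.mem_fixingSubgroup_iff] at hσ
    exact hσ _ ⟨x, rfl⟩
  obtain ⟨L, hL, e, he0, heo, hey⟩ := towerP (k := K) (Ω := Ω) p (fun _ => True)
    (fun i f hf hfo _ => by
      obtain ⟨f', h1, h2, h3, -⟩ := stepW hK (p i) (h i) ⊥
        ⟨inferInstance, inferInstance⟩ f hf hfo
      exact ⟨f', h1, h2, trivial, h3⟩) f₀ (e₀.symm.surjective.comp hr) ho trivial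
  have hjL : ∀ x : L₀, j x ∈ L := by
    intro x
    rw [← InfiniteGalois.fixedField_fixingSubgroup L]
    rintro ⟨σ, hσ⟩
    have h1 : restrictNormalHom L σ = 1 := by
      rw [← MonoidHom.mem_ker, restrictNormalHom_ker]
      exact hσ
    have h2 := he0 σ
    rw [h1, map_one] at h2
    have h3 : r σ = 1 := (hker σ).1 h2.symm
    change σ (j x) = j x
    rw [hrc, h3]
    rfl
  let j' : L₀ →ₐ[K] L := j.codRestrict L.toSubalgebra hjL
  let aL' : Algebra L₀ L := j'.toRingHom.toAlgebra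
  have hT' : IsScalarTower K L₀ L := IsScalarTower.of_algebraMap_eq fun x => (j'.commutes x).symm
  refine ⟨L, inferInstance, inferInstance, aL', hT', hL, e, heo, fun τ x => ?_⟩
  obtain ⟨σ, rfl⟩ := restrictNormalHom_surjective (F := K) (K₁ := L) Ω τ
  rw [he0]
  apply Subtype.ext
  have h1 := AlgEquiv.restrictNormal_commutes σ L (j' x)
  refine h1.trans ?_
  change σ (j x) = j (e₀ (e₀.symm (r σ)) x)
  rw [MulEquiv.apply_symm_apply, hrc]

/-- Finiteness of the groups in a tower with finite kernels. -/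
theorem finite_tower {W : ℕ → Type} [∀ i, Group (W i)] (h0 : Finite (W 0))
    (p : ∀ i, W (i + 1) →* W i) (hk : ∀ i, Finite (p i).ker) : ∀ i, Finite (W i) := by
  intro i
  induction i with
  | zero => exact h0
  | succ i ih =>
    have h1 := hk i
    have h2 : Finite (W (i + 1) ⧸ (p i).ker) :=
      Finite.of_equiv _ (QuotientGroup.quotientKerEquivRange (p i)).symm.toEquiv
    exact Finite.of_equiv _ (Subgroup.groupEquivQuotientProdSubgroup (s := (p i).ker)).symm

/-- The regular solutions in a tower with wreath product kernels. -/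
theorem reg_tower (K : Type) [Field K] {G : Type} [Group G] [Finite G] [Nontrivial G]
    (hZ : Subgroup.center G = ⊥)
    (hT : ∃ T : Subgroup (MulAut G), IsCompl T (MulAut.conj : G →* MulAut G).range)
    (n : ℕ) (hn : ((3 * Nat.card G + 2).factorial) ^ 3 ≤ n)
    {W W' : Type} [Group W] [Group W'] (p : W' →* W) (hp : Function.Surjective p)
    (hι : Nonempty (p.ker ≃* Wr G n))
    (L : Type) [Field L] [Algebra K L] [FiniteDimensional K L] [IsGalois K L]
    (ε : (L ≃ₐ[K] L) ≃* W) : RegSol K L W' (ε.symm.toMonoidHom.comp p) := by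
  refine reg_kernel' hZ hT n hn K L W' _ (ε.symm.surjective.comp hp) ?_
  have h1 : (ε.symm.toMonoidHom.comp p).ker = p.ker := by
    ext x
    rw [MonoidHom.mem_ker, MonoidHom.mem_ker]
    exact map_eq_one_iff ε.symm ε.symm.injective
  rw [h1]
  exact hι

end Pool.Agent.TH377.IG
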