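import Mathlib
import Pool.Agent.TH377.IG.RegFin
import Pool.Agent.TH377.IG.TowSpec
import Pool.Agent.W200.IJ.BC

/-!
# Infinite regular towers over `K(t)`
-/

set_option autoImplicit false

namespace Pool.Agent.TH377.IG

open IntermediateField AlgEquiv
open Pool.Agent.TH15.IGP (Lim)
open Pool.Agent.H391R2.T4 (RegSol HilbField)

theorem tower_regular (K L : Type) [Field K] [Field L] [Algebra K L] [FiniteDimensional K L]
    [IsGalois K L]
    (hstep : ∀ (Ω : Type) [Field Ω] [Algebra (RatFunc K) Ω] [IsGalois (RatFunc K) Ω]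
      [IsSepClosed Ω] [Algebra K Ω] [IsScalarTower K (RatFunc K) Ω] (j : L →ₐ[K] Ω),
      RegStep K L Ω j)
    (W : ℕ → Type) [∀ i, Group (W i)] [∀ i, Finite (W i)] (p : ∀ i, W (i + 1) →* W i)
    (h : ∀ i, ∀ (M : Type) [Field M] [Algebra (RatFunc K) M] [FiniteDimensional (RatFunc K) M]
      [IsGalois (RatFunc K) M] (ε : (M ≃ₐ[RatFunc K] M) ≃* W i),
      RegSol (RatFunc K) M (W (i + 1)) (ε.symm.toMonoidHom.comp (p i)))
    (e₀ : W 0 ≃* (L ≃ₐ[K] L)) :
    ∃ (F : Type) (_ : Field F) (_ : Algebra (RatFunc K) F) (_ : Algebra L F)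
      (_ : Algebra K F) (_ : IsScalarTower K (RatFunc K) F) (_ : IsScalarTower K L F)
      (_ : IsGalois (RatFunc K) F) (γ : (F ≃ₐ[RatFunc K] F) ≃* Lim p),
      (∀ i, IsOpen {σ : F ≃ₐ[RatFunc K] F | (γ σ).1 i = 1}) ∧
      (∀ (σ : F ≃ₐ[RatFunc K] F) (x : L),
        σ (algebraMap L F x) = algebraMap L F (e₀ ((γ σ).1 0) x)) ∧
      ∀ y : F, IsAlgebraic L y → y ∈ Set.range (algebraMap L F) := by
  classical
  let Ω := SeparableClosure (RatFunc K)
  have hΩt : IsScalarTower K (RatFunc K) Ω := inferInstance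
  obtain ⟨F₀, i1, i2, i3, i4, i5, i6, i7, i8, γ₀, hγ₀, hreg₀⟩ :=
    Pool.Agent.W200.IJ.taskA_empty K L (L ≃ₐ[K] L) (MonoidHom.id _) Function.injective_id
      (fun x hx => (IsGalois.mem_range_algebraMap_iff_fixed x).2 hx)
  let j₀ : F₀ →ₐ[RatFunc K] Ω := IsSepClosed.lift
  let aF₀ : Algebra F₀ Ω := j₀.toRingHom.toAlgebra
  have tF₀ : IsScalarTower (RatFunc K) F₀ Ω :=
    IsScalarTower.of_algebraMap_eq fun x => (j₀.commutes x).symm
  let j : L →ₐ[K] Ω :=
    { toRingHom := j₀.toRingHom.comp (algebraMap L F₀)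
      commutes' := fun x => by
        change j₀ (algebraMap L F₀ (algebraMap K L x)) = _
        rw [← IsScalarTower.algebraMap_apply K L F₀,
          IsScalarTower.algebraMap_apply K (RatFunc K) F₀, j₀.commutes,
          ← IsScalarTower.algebraMap_apply K (RatFunc K) Ω] }
  have hj : ∀ x : L, j x = j₀ (algebraMap L F₀ x) := fun _ => rfl
  let r : Gal(Ω/RatFunc K) →* (F₀ ≃ₐ[RatFunc K] F₀) := restrictNormalHom F₀
  have hr : Function.Surjective r := restrictNormalHom_surjective Ω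
  have hrc : ∀ (σ : Gal(Ω/RatFunc K)) (x : F₀), σ (j₀ x) = j₀ (r σ x) := fun σ x =>
    (AlgEquiv.restrictNormal_commutes σ F₀ x).symm
  let f₀ : Gal(Ω/RatFunc K) →* W 0 := e₀.symm.toMonoidHom.comp (γ₀.toMonoidHom.comp r)
  have hf₀ : ∀ σ, f₀ σ = e₀.symm (γ₀ (r σ)) := fun _ => rfl
  have hker : ∀ σ, σ ∈ f₀.ker ↔ r σ = 1 := fun σ => by
    rw [MonoidHom.mem_ker, hf₀, map_eq_one_iff e₀.symm e₀.symm.injective,
      map_eq_one_iff γ₀ γ₀.injective]
  let E' : IntermediateField (RatFunc K) Ω := j₀.fieldRange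
  have hE' : FiniteDimensional (RatFunc K) E' := Module.Finite.equiv
    (AlgEquiv.ofInjectiveField j₀).toLinearEquiv
  have hfix : E'.fixingSubgroup = f₀.ker := by
    ext σ
    rw [hker, IntermediateField.mem_fixingSubgroup_iff]
    constructor
    · intro h1
      apply AlgEquiv.ext
      intro x
      apply j₀.toRingHom.injective
      exact (hrc σ x).symm.trans (h1 _ ⟨x, rfl⟩)
    · rintro h1 _ ⟨x, rfl⟩
      change σ (j₀ x) = j₀ x
      rw [hrc, h1]
      rfl
  have ho : IsOpen (f₀.ker : Set Gal(Ω/RatFunc K)) := by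
    rw [← hfix]
    exact E'.fixingSubgroup_isOpen
  have hff : fixedField f₀.ker = E' := by
    rw [← hfix]
    exact InfiniteGalois.fixedField_fixingSubgroup E'
  have hP₀ : ConstIn K (Set.range j) f₀.ker := by
    constructor
    · rintro _ ⟨x, rfl⟩ σ hσ
      rw [hj, hrc, (hker σ).1 hσ]
      rfl
    · intro y hy hya
      rw [hff] at hy
      obtain ⟨z, rfl⟩ := hy
      change IsAlgebraic K (j₀ z) at hya
      have s0 : IsScalarTower K F₀ Ω := IsScalarTower.of_algebraMap_eq fun x => by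
        rw [IsScalarTower.algebraMap_apply K (RatFunc K) F₀,
          ← IsScalarTower.algebraMap_apply (RatFunc K) F₀ Ω,
          ← IsScalarTower.algebraMap_apply K (RatFunc K) Ω]
      have h1 : IsAlgebraic K (algebraMap F₀ Ω z) := hya
      rw [isAlgebraic_algebraMap_iff (algebraMap F₀ Ω).injective] at h1
      obtain ⟨x, rfl⟩ := hreg₀ z (h1.extendScalars (algebraMap K L).injective)
      exact ⟨x, rfl⟩
  obtain ⟨F, hF, e, he0, heo, hey⟩ := towerP (k := RatFunc K) (Ω := Ω) p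
    (ConstIn K (Set.range j))
    (fun i f hf hfo hfP => by
      obtain ⟨f', h1, h2, h3, h4⟩ := hstep Ω j (W i) (W (i + 1)) (p i) (h i) f hf hfo hfP
      exact ⟨f', h1, h2, h3, h4⟩) f₀ (e₀.symm.surjective.comp (γ₀.surjective.comp hr)) ho hP₀
  have hjF : ∀ x : L, j x ∈ F := by
    intro x
    rw [← InfiniteGalois.fixedField_fixingSubgroup F]
    rintro ⟨σ, hσ⟩
    have h1 : restrictNormalHom F σ = 1 := by
      rw [← MonoidHom.mem_ker, restrictNormalHom_ker]
      exact hσ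
    have h2 := he0 σ
    rw [h1, map_one] at h2
    have h3 : r σ = 1 := (hker σ).1 h2.symm
    change σ (j x) = j x
    rw [hj, hrc, h3]
    rfl
  let aLF : Algebra L F := ((j : L →+* Ω).codRestrict F hjF).toAlgebra
  have hLFv : ∀ x : L, ((algebraMap L F x : F) : Ω) = j x := fun _ => rfl
  have sKF : IsScalarTower K (RatFunc K) F := IsScalarTower.of_algebraMap_eq fun x => rfl
  have sKLF : IsScalarTower K L F := IsScalarTower.of_algebraMap_eq fun x => by
    apply Subtype.ext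
    rw [hLFv, j.commutes]
    rfl
  refine ⟨F, inferInstance, inferInstance, aLF, inferInstance, sKF, sKLF, hF, e, heo,
    fun τ x => ?_, fun y hy => ?_⟩
  · obtain ⟨σ, rfl⟩ := restrictNormalHom_surjective (F := RatFunc K) (K₁ := F) Ω τ
    rw [he0]
    apply Subtype.ext
    have h1 := AlgEquiv.restrictNormal_commutes σ F (algebraMap L F x)
    refine h1.trans ?_
    change σ (j x) = j (e₀ (e₀.symm (γ₀ (r σ))) x)
    rw [MulEquiv.apply_symm_apply, hj, hrc, hγ₀]
    rfl
  · have hyK : IsAlgebraic K y := hy.restrictScalars K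
    have sKFΩ : IsScalarTower K F Ω := IsScalarTower.of_algebraMap_eq fun x => rfl
    have hyΩ : IsAlgebraic K (y : Ω) := hyK.algebraMap (A := Ω)
    obtain ⟨N, hN, hyN⟩ := hey y y.2
    obtain ⟨x, hx⟩ := hN.2 _ hyN hyΩ
    exact ⟨x, Subtype.ext hx⟩

end Pool.Agent.TH377.IG
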