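import Mathlib
import Pool.Agent.TH377.IG.TowReg
import Pool.Agent.TH59.WX.UH

/-!
# Admissible steps of towers
-/

set_option autoImplicit false

namespace Pool.Agent.TH377.IG

open Pool.Agent.H391R2.T4 (RegSol HilbField EG)
open Pool.Agent.H391R2 (Wr)
open Pool.Agent.TH59.WX

/-- The epimorphism `p : W' → W` is of one of the following two types.
(1) `p` is the projection of a semidirect product `(G ≀ S_n) ⋊ W`, where `W` acts on the finite
group `G` through some `φ : W → Aut G` and on `G ≀ S_n` through the simultaneous action on all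
coordinates, and `n ≥ ((3 |G| + 2)!)^3`.
(2) The kernel of `p` is isomorphic to `G ≀ S_n` for a nontrivial finite group `G` with trivial
centre such that the inner automorphisms have a complement in `Aut G`, and
`n ≥ ((3 |G| + 2)!)^3`. -/
def WStep {W W' : Type} [Group W] [Group W'] (p : W' →* W) : Prop :=
  (∃ (G : Type) (_ : Group G) (_ : Finite G) (φ : W →* MulAut G) (n : ℕ) (Θ : W' ≃* EG φ n),
    ((3 * Nat.card G + 2).factorial) ^ 3 ≤ n ∧ ∀ x, (Θ x).right = p x) ∨
  (Function.Surjective p ∧ ∃ (G : Type) (_ : Group G) (_ : Finite G) (_ : Nontrivial G) (n : ℕ),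
    Subgroup.center G = ⊥ ∧
    (∃ T : Subgroup (MulAut G), IsCompl T (MulAut.conj : G →* MulAut G).range) ∧
    ((3 * Nat.card G + 2).factorial) ^ 3 ≤ n ∧
    Nonempty (p.ker ≃* ((Fin n → G) ⋊[mulAutArrow] Equiv.Perm (Fin n))))

theorem regSol_equiv {K L H H' : Type} [Field K] [Field L] [Algebra K L] [Group H] [Group H']
    (α : H →* (L ≃ₐ[K] L)) (α' : H' →* (L ≃ₐ[K] L)) (e : H' ≃* H) (he : ∀ x, α (e x) = α' x)
    (h : RegSol K L H α) : RegSol K L H' α' := by
  obtain ⟨F, i1, i2, i3, i4, i5, i6, i7, i8, γ, hγ, hr⟩ := h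
  refine ⟨F, i1, i2, i3, i4, i5, i6, i7, i8, γ.trans e.symm, fun σ x => ?_, hr⟩
  rw [hγ, ← he]
  congr 2
  exact congrArg α (e.apply_symm_apply _).symm

/-- Change of the acting group. -/
def egCongr {G Γ Γ' : Type} [Group G] [Group Γ] [Group Γ'] (φ : Γ' →* MulAut G) (ε : Γ ≃* Γ')
    (n : ℕ) : EG (φ.comp ε.toMonoidHom) n ≃* EG φ n where
  toFun z := ⟨z.left, ε z.right⟩
  invFun z := ⟨z.left, ε.symm z.right⟩
  left_inv z := by
    apply SemidirectProduct.ext
    · rfl
    · exact ε.symm_apply_apply _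
  right_inv z := by
    apply SemidirectProduct.ext
    · rfl
    · exact ε.apply_symm_apply _
  map_mul' a b := by
    apply SemidirectProduct.ext
    · rfl
    · exact map_mul ε _ _

theorem finite_wstep {W W' : Type} [Group W] [Group W'] {p : W' →* W} (hp : WStep p)
    (hW : Finite W) : Finite W' := by
  rcases hp with ⟨G, _, _, φ, n, Θ, -, -⟩ | ⟨-, G, _, _, _, n, -, -, -, ⟨ι⟩⟩
  · exact Finite.of_equiv _ Θ.symm.toEquiv
  · have h1 : Finite (Wr G n) := Pool.Agent.H391R2.T4.finite_wr G n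
    exact finite_of_kernel p ι.symm

theorem reg_wstep (K : Type) [Field K] {W W' : Type} [Group W] [Group W'] {p : W' →* W}
    (hp : WStep p) (L : Type) [Field L] [Algebra K L] [FiniteDimensional K L] [IsGalois K L]
    (ε : (L ≃ₐ[K] L) ≃* W) : RegSol K L W' (ε.symm.toMonoidHom.comp p) := by
  rcases hp with ⟨G, _, _, φ, n, Θ, hn, hΘ⟩ | ⟨hs, G, _, _, _, n, hZ, hT, hn, hι⟩
  · have h1 := reg_eg (K := K) (L := L) G (φ.comp ε.toMonoidHom) n
      ((ub_le_fac _ Nat.card_pos).trans hn)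
    refine regSol_equiv _ _ (Θ.trans (egCongr φ ε n).symm) (fun x => ?_) h1
    change ε.symm (Θ x).right = ε.symm (p x)
    rw [hΘ]
  · exact reg_tower K hZ hT n hn p hs hι L ε

/-- Infinite regular towers. -/
theorem tower_regular' (K L : Type) [Field K] [Field L] [Algebra K L] [FiniteDimensional K L]
    [IsGalois K L]
    (hstep : ∀ (Ω : Type) [Field Ω] [Algebra (RatFunc K) Ω] [IsGalois (RatFunc K) Ω]
      [IsSepClosed Ω] [Algebra K Ω] [IsScalarTower K (RatFunc K) Ω] (j : L →ₐ[K] Ω),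
      RegStep K L Ω j)
    (W : ℕ → Type) [∀ i, Group (W i)] (p : ∀ i, W (i + 1) →* W i) (hp : ∀ i, WStep (p i))
    (e₀ : W 0 ≃* (L ≃ₐ[K] L)) :
    ∃ (F : Type) (_ : Field F) (_ : Algebra (RatFunc K) F) (_ : Algebra L F)
      (_ : Algebra K F) (_ : IsScalarTower K (RatFunc K) F) (_ : IsScalarTower K L F)
      (_ : IsGalois (RatFunc K) F) (γ : (F ≃ₐ[RatFunc K] F) ≃* Pool.Agent.TH15.IGP.Lim p),
      (∀ i, IsOpen {σ : F ≃ₐ[RatFunc K] F | (γ σ).1 i = 1}) ∧
      (∀ (σ : F ≃ₐ[RatFunc K] F) (x : L),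
        σ (algebraMap L F x) = algebraMap L F (e₀ ((γ σ).1 0) x)) ∧
      ∀ y : F, IsAlgebraic L y → y ∈ Set.range (algebraMap L F) := by
  have hfin : ∀ i, Finite (W i) := by
    intro i
    induction i with
    | zero => exact Finite.of_equiv _ e₀.symm.toEquiv
    | succ i ih => exact finite_wstep (hp i) ih
  exact tower_regular K L hstep W p (fun i M _ _ _ _ ε => reg_wstep (RatFunc K) (hp i) M ε) e₀

end Pool.Agent.TH377.IG
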