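import Mathlib
import Pool.Agent.TH377.IG.RegInf
import Pool.Agent.TH377.IG.Steps

/-!
# The regular step and regular towers over arbitrary fields
-/

set_option autoImplicit false

namespace Pool.Agent.TH377.IG

/-- The regular step, for every field `K`. -/
theorem regStep (K L : Type) [Field K] [Field L] [Algebra K L]
    [FiniteDimensional K L] [IsGalois K L]
    (Ω : Type) [Field Ω] [Algebra (RatFunc K) Ω] [IsGalois (RatFunc K) Ω] [IsSepClosed Ω]
    [Algebra K Ω] [IsScalarTower K (RatFunc K) Ω] (j : L →ₐ[K] Ω) : RegStep K L Ω j := by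
  rcases finite_or_infinite K with h | h
  · exact regStep_fin K L Ω j
  · exact regStep_inf K L Ω j

/-- Infinite regular towers over `K(t)`, for every field `K`. -/
theorem tower_regular_all (K L : Type) [Field K] [Field L] [Algebra K L] [FiniteDimensional K L]
    [IsGalois K L]
    (W : ℕ → Type) [∀ i, Group (W i)] (p : ∀ i, W (i + 1) →* W i) (hp : ∀ i, WStep (p i))
    (e₀ : W 0 ≃* (L ≃ₐ[K] L)) :
    ∃ (F : Type) (_ : Field F) (_ : Algebra (RatFunc K) F) (_ : Algebra L F)
      (_ : Algebra K F) (_ : IsScalarTower K (RatFunc K) F) (_ : IsScalarTower K L F)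
      (_ : IsGalois (RatFunc K) F) (γ : (F ≃ₐ[RatFunc K] F) ≃* Pool.Agent.TH15.IGP.Lim p),
      (∀ i, IsOpen {σ : F ≃ₐ[RatFunc K] F | (γ σ).1 i = 1}) ∧
      (∀ (σ : F ≃ₐ[RatFunc K] F) (x : L),
        σ (algebraMap L F x) = algebraMap L F (e₀ ((γ σ).1 0) x)) ∧
      ∀ y : F, IsAlgebraic L y → y ∈ Set.range (algebraMap L F) :=
  tower_regular' K L (fun Ω _ _ _ _ _ _ j => regStep K L Ω j) W p hp e₀

end Pool.Agent.TH377.IG
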