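import Mathlib
import Pool.Agent.TH377.IG.HilbInf
import Pool.Agent.TH59.WX.UH

/-!
# Infinite fibre products of symmetric fibre powers over Hilbertian fields
-/

set_option autoImplicit false

namespace Pool.Agent.TH377.IG

open Pool.Agent.H391R2.T4 (RegSol HilbField WeakSol SymEP symProj)

theorem inf_hilb_sym {K : Type} [Field K] (hK : HilbField K) (L : Type) [Field L] [Algebra K L]
    [FiniteDimensional K L] [IsGalois K L] (J : Type) [Countable J] (H : J → Type)
    [∀ i, Group (H i)] [∀ i, Finite (H i)] (α : ∀ i, H i →* (L ≃ₐ[K] L))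
    (hw : ∀ i, WeakSol K L (H i) (α i)) (n : J → ℕ)
    (hn : ∀ i, ((3 * Nat.card (α i).ker + 2).factorial) ^ 3 ≤ n i) :
    ∃ (F : Type) (_ : Field F) (_ : Algebra K F) (_ : Algebra L F) (_ : IsScalarTower K L F)
      (_ : IsGalois K F) (γ : (F ≃ₐ[K] F) ≃* FPI fun i => symProj (α i) (n i)),
      (∀ i, IsOpen {σ : F ≃ₐ[K] F |
        (γ σ : (∀ i, SymEP (α i) (n i)) × (L ≃ₐ[K] L)).1 i = 1}) ∧
      ∀ (σ : F ≃ₐ[K] F) (x : L), σ (algebraMap L F x) =
        algebraMap L F ((γ σ : (∀ i, SymEP (α i) (n i)) × (L ≃ₐ[K] L)).2 x) := by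
  have hfin : ∀ i, Finite (SymEP (α i) (n i)) := fun i => by
    have hf : Finite (Pool.Agent.H391R2.Wr (H i) (n i)) :=
      Finite.of_equiv _ SemidirectProduct.equivProd.symm
    infer_instance
  exact inf_hilb hK L J (fun i => SymEP (α i) (n i)) (fun i => symProj (α i) (n i))
    fun i => Pool.Agent.TH59.WX.reg_sym_unif K L (H i) (α i) (hw i) (n i) (hn i)

end Pool.Agent.TH377.IG
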